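import Pool.Agent.H18.Sq.Fin8
import Pool.Agent.H74.BP.Red
import Pool.Agent.H74.BP.PlaneT

/-!
# Plane systems of large virtual dimension with at most nine multiplicities of the order of `d`
-/

namespace Pool.Agent.H18.Sq

open MvPolynomial Finset Pool.Agent.H18.Fat Pool.Agent.H18.Iso Pool.Agent.H18.Pr Pool.Agent.H18.Ub
  Pool.Agent.H18.Cub

/-- Parameter count. -/
theorem generalDim_ge {k d : ℕ} (m : Fin k → ℕ) : virt d m ≤ (generalDim 2 d m : ℤ) := by
  obtain ⟨p, hp, hp0⟩ := exists_of_general ((generalDim_spec 2 d m).and (general_ne_zero 2 k))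
  have h1 := finrank_fatForms_ge (d := d) (r := 2) (by norm_num) hp0 m
  rw [hp] at h1
  exact h1

theorem generalDim_mono {k d : ℕ} {m m' : Fin k → ℕ} (h : ∀ i, m' i ≤ m i) :
    generalDim 2 d m ≤ generalDim 2 d m' := by
  obtain ⟨p, hp1, hp2⟩ := exists_of_general ((generalDim_spec 2 d m).and (generalDim_spec 2 d m'))
  rw [← hp1, ← hp2]
  apply Submodule.finrank_mono
  intro F hF
  exact ⟨hF.1, fun i β hβ => hF.2 i β (lt_of_lt_of_le hβ (h i))⟩

theorem virt_sub {k d j : ℕ} (m : Fin k → ℕ) (hj : j ≤ d) :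
    virt d m ≤ virt j m + ((d : ℤ) - j) * (d + 2) := by
  have h1 := choose_two (d + 2)
  have h2 := choose_two (j + 2)
  push_cast at h1 h2
  have h3 : (j : ℤ) ≤ d := by exact_mod_cast hj
  have h4 : (0 : ℤ) ≤ j := Int.natCast_nonneg _
  unfold virt
  nlinarith [mul_nonneg (sub_nonneg.2 h3) h4]

/-- At most eight arbitrary multiplicities, the others being at most `μ`. -/
theorem eight_med : ∃ K : ℕ, ∀ (k d μ : ℕ) (m : Fin k → ℕ) (J : Finset (Fin k)),
    3 ≤ k → J.card ≤ 8 → (∀ i, i ∉ J → m i ≤ μ) →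
    (((K + μ) * (d + 1) : ℕ) : ℤ) ≤ virt d m →
    (ForGeneralPoints 2 k fun p => ∃ F ∈ fatForms 2 d p m, ∀ i, IsolatedAt F (p i)) →
    ForGeneralPoints 2 k fun p => ImposesMaximalConditions 2 d p m := by
  classical
  obtain ⟨K, E, H⟩ := Pool.Agent.H74.BP.plane_T
  refine ⟨K + 1, fun k d μ m J hk hJ hμ hv hiso => ?_⟩
  obtain ⟨d', m', hcr, hdd, hle, hstd⟩ :=
    exists_standard hk d m (ne_zero_of_isolated (by omega) hiso)
  have hvv := virt_eq_of_isolated hcr hiso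
  rw [← hvv] at hv
  have hv1 : (((K + 1 + μ) * (d' + 1) : ℕ) : ℤ) ≤ virt d' m' := by
    refine le_trans ?_ hv
    exact_mod_cast Nat.mul_le_mul_left _ (by omega)
  have h2 := virt_le (d := d') m'
  have h3 := choose_two (d' + 2)
  have hd' : K + μ ≤ d' := by
    push_cast at h3 hv1
    by_contra hcon
    push Not at hcon
    have h4 : (d' : ℤ) + 1 ≤ K + μ := by exact_mod_cast hcon
    have h5 : (0 : ℤ) ≤ d' := Int.natCast_nonneg _
    nlinarith
  refine maximal_of_cremona hcr hiso (H 1 le_rfl k d' μ m' J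
    (fun i hi => (hle i).trans (hμ i hi)) hstd (by rw [one_pow, mul_one]; omega)
    (Or.inl ⟨hJ, Or.inr (Or.inl ⟨by rw [one_pow, mul_one]; omega, ?_⟩)⟩))
  rw [one_pow, mul_one]
  have h4 : ((∑ i ∈ univ.filter (fun i => i ∈ J ∨ 1 < m' i), (m' i + 1).choose 2 : ℕ) : ℤ) ≤
      ((d' + 2).choose 2 : ℤ) - virt d' m' := by
    unfold virt
    push_cast
    have : ∑ i ∈ univ.filter (fun i => i ∈ J ∨ 1 < m' i), ((m' i + 1).choose 2 : ℤ) ≤
        ∑ i, ((m' i + 1).choose 2 : ℤ) :=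
      sum_le_sum_of_subset_of_nonneg (subset_univ _) fun i _ _ => by positivity
    linarith
  have h5 : ((d' + 2).choose 2 : ℤ) - ((K + 1 + μ : ℕ) : ℤ) * (d' + 1) ≤
      ((d' - K - μ + 2).choose 2 : ℕ) := by
    have h6 := choose_two (d' - K - μ + 2)
    push_cast at h3 h6 ⊢
    have h7 : ((d' - K - μ : ℕ) : ℤ) = d' - K - μ := by omega
    rw [h7] at h6
    have h8 : (0 : ℤ) ≤ (d' : ℤ) - K - μ := by omega
    have h9 : (0 : ℤ) ≤ (K : ℤ) := Int.natCast_nonneg _
    have h10 : (0 : ℤ) ≤ (μ : ℤ) := Int.natCast_nonneg _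
    nlinarith [mul_nonneg (add_nonneg h9 h10) (add_nonneg h9 h10)]
  have h6 : ((∑ i ∈ univ.filter (fun i => i ∈ J ∨ 1 < m' i), (m' i + 1).choose 2 : ℕ) : ℤ) ≤
      ((d' - K - μ + 2).choose 2 : ℕ) := by
    push_cast at hv1 h5 ⊢
    push_cast at h4
    linarith
  exact_mod_cast h6

/-- For systems with `vdim ≥ δ d²` only the multiplicities of the order of `d` matter. -/
theorem big_virt (δ : ℝ) (hδ : 0 < δ) : ∃ (ε : ℝ) (d₀ : ℕ), 0 < ε ∧
    ∀ (k d : ℕ) (m : Fin k → ℕ), 3 ≤ k → d₀ ≤ d → δ * d ^ 2 ≤ (virt d m : ℝ) →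
    {i | ε * d < (m i : ℝ)}.ncard ≤ 9 →
    (ForGeneralPoints 2 k fun p => ∃ F ∈ fatForms 2 d p m, ∀ i, IsolatedAt F (p i)) →
    ForGeneralPoints 2 k fun p => ImposesMaximalConditions 2 d p m := by
  classical
  obtain ⟨K, E, hK⟩ := nine_virt
  set η : ℝ := min (δ / 4) (1 / 2) with hη
  have hη0 : 0 < η := lt_min (by positivity) (by norm_num)
  have hη1 : η ≤ 1 / 2 := min_le_right _ _
  have hηδ : η ≤ δ / 4 := min_le_left _ _
  obtain ⟨d₁, hd₁⟩ := Pool.Agent.H74.BP.reduction 2 1 le_rfl le_rfl η hη0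
  obtain ⟨d₂, hd₂⟩ := exists_nat_ge (8 / δ + 2 * K / δ + 1)
  refine ⟨η / 2, d₁ + d₂, by positivity, fun k d m hk hd hv hcard hiso => ?_⟩
  have hdd : (8 / δ + 2 * K / δ + 1 : ℝ) ≤ d := hd₂.trans (by
    exact_mod_cast (by omega : d₂ ≤ d))
  have hK0 : (0 : ℝ) ≤ K := Nat.cast_nonneg K
  have hd8 : 8 / δ < (d : ℝ) := by
    have : (0 : ℝ) ≤ 2 * K / δ := by positivity
    linarith
  have hdK : 2 * K / δ ≤ (d : ℝ) := by
    have : (0 : ℝ) ≤ 8 / δ := by positivity
    linarith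
  have hd1 : (1 : ℝ) ≤ d := by
    have : (0 : ℝ) ≤ 8 / δ := by positivity
    have : (0 : ℝ) ≤ 2 * K / δ := by positivity
    linarith
  rw [div_lt_iff₀ hδ] at hd8
  rw [div_le_iff₀ hδ] at hdK
  set J := univ.filter fun i : Fin k => η / 2 * d < (m i : ℝ) with hJdef
  have hJ : ∀ i, i ∈ J ↔ η / 2 * d < (m i : ℝ) := by
    intro i
    rw [hJdef, mem_filter]
    exact ⟨fun h => h.2, fun h => ⟨mem_univ i, h⟩⟩
  have hJset : {i : Fin k | η / 2 * d < (m i : ℝ)} = (J : Set (Fin k)) := by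
    ext i
    exact (hJ i).symm
  rw [hJset, Set.ncard_coe_finset] at hcard
  -- effective in a smaller degree
  set j : ℕ := ⌊(1 - η) * d⌋₊ with hj
  have hj0 : (0 : ℝ) ≤ (1 - η) * d := by
    have : (0 : ℝ) ≤ 1 - η := by linarith
    positivity
  have hj1 : (j : ℝ) ≤ (1 - η) * d := Nat.floor_le hj0
  have hj2 : (1 - η) * d < (j : ℝ) + 1 := Nat.lt_floor_add_one _
  have hjd : j ≤ d := by
    have : (j : ℝ) ≤ d := hj1.trans (by nlinarith)
    exact_mod_cast this
  have hvj : 0 < virt j m := by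
    have h1 : ((virt d m : ℤ) : ℝ) ≤ (virt j m : ℝ) + ((d : ℝ) - j) * (d + 2) := by
      exact_mod_cast virt_sub m hjd
    have h2 : ((d : ℝ) - j) * (d + 2) < δ * d ^ 2 := by
      have h3 : (d : ℝ) - j ≤ η * d + 1 := by linarith
      have h4 : ((d : ℝ) - j) * (d + 2) ≤ (η * d + 1) * (d + 2) :=
        mul_le_mul_of_nonneg_right h3 (by positivity)
      have h5 : (η * d + 1) * (d + 2) ≤ δ / 4 * d ^ 2 + 4 * d := by
        have h6 : η * (d : ℝ) ^ 2 ≤ δ / 4 * d ^ 2 := mul_le_mul_of_nonneg_right hηδ (by positivity)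
        have h7 : η * (d : ℝ) ≤ 1 / 2 * d := mul_le_mul_of_nonneg_right hη1 (by positivity)
        nlinarith
      have h6 : 4 * (d : ℝ) < δ / 2 * d ^ 2 := by nlinarith
      nlinarith
    have h3 : (0 : ℝ) < (virt j m : ℝ) := by linarith
    exact_mod_cast h3
  have heff : 0 < generalDim 2 j fun i => if 1 < m i then m i else 0 := by
    have h1 := generalDim_ge (d := j) m
    have h2 : generalDim 2 j m ≤ generalDim 2 j fun i => if 1 < m i then m i else 0 :=
      generalDim_mono fun i => by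
        split_ifs
        · exact le_rfl
        · exact Nat.zero_le _
    have h3 : (0 : ℤ) < (generalDim 2 j m : ℤ) := by linarith
    have h4 : 0 < generalDim 2 j m := by exact_mod_cast h3
    omega
  obtain ⟨-, -, hred⟩ := hd₁ k d m J (by omega) hJ ⟨j, hj1, heff⟩
  apply hred
  have hle : ∀ i, (if i ∈ J then m i else 0) ≤ m i := fun i => by
    split_ifs
    · exact le_rfl
    · exact Nat.zero_le _
  refine (hK 1 le_rfl k d (fun i => if i ∈ J then m i else 0) J hk hcard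
    (fun i hi => by rw [if_neg hi]; exact Nat.zero_le _) ?_).2 (Or.inr ?_)
  · refine hiso.mono fun p hp => ?_
    obtain ⟨F, hF, hFi⟩ := hp
    exact ⟨F, ⟨hF.1, fun i β hβ => hF.2 i β (lt_of_lt_of_le hβ (hle i))⟩, hFi⟩
  · have h1 : virt d m ≤ virt d fun i => if i ∈ J then m i else 0 := by
      unfold virt
      have : ∑ i, (((if i ∈ J then m i else 0) + 2 - 1).choose 2 : ℤ) ≤
          ∑ i, ((m i + 2 - 1).choose 2 : ℤ) := by
        refine sum_le_sum fun i _ => ?_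
        exact_mod_cast Nat.choose_le_choose 2 (by have := hle i; omega)
      linarith
    refine le_trans ?_ h1
    have h2 : (((K * 1 ^ E * (d + 1) : ℕ) : ℤ) : ℝ) ≤ ((virt d m : ℤ) : ℝ) := by
      refine le_trans ?_ hv
      rw [one_pow, mul_one]
      push_cast
      have h3 : (K : ℝ) * (d + 1) ≤ K * (2 * d) := mul_le_mul_of_nonneg_left (by linarith) hK0
      nlinarith
    exact_mod_cast h2

end Pool.Agent.H18.Sq
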