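import Pool.Agent.H18.Sq.Node

/-!
# Isolated singularities and quadratic transformations of the plane
-/

namespace Pool.Agent.H18.Sq

open MvPolynomial Finset Pool.Agent.H18.Fat Pool.Agent.H18.Iso Pool.Agent.H18.Pr Pool.Agent.H18.Ub
  Pool.Agent.H18.Cub

/-- Inverting the coordinates of general points. -/
theorem general_inv {r k : ℕ} {P : (Fin k → Fin (r + 1) → ℂ) → Prop}
    (h : ForGeneralPoints r k P) :
    ForGeneralPoints r k fun y => (∀ i j, y i j ≠ 0) ∧ P fun i j => (y i j)⁻¹ := by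
  classical
  obtain ⟨G, hG, hGP⟩ := h
  let D : MvPolynomial (Fin k × Fin (r + 1)) ℂ := ∏ x, X x
  let g : Fin k × Fin (r + 1) → MvPolynomial (Fin k × Fin (r + 1)) ℂ := fun x =>
    ∏ x' ∈ univ.erase x, X x'
  have hD : ∀ a : Fin k × Fin (r + 1) → ℂ, eval a D = ∏ x, a x := by
    intro a
    simp [D, map_prod]
  have hD0 : D ≠ 0 := prod_ne_zero_iff.2 fun x _ => X_ne_zero x
  obtain ⟨Q, N, hQ⟩ := clear_denom D g G
  have hQ' : ∀ a : Fin k × Fin (r + 1) → ℂ, (∀ x, a x ≠ 0) →
      eval a Q = (eval a D) ^ N * eval (fun x => (a x)⁻¹) G := by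
    intro a ha
    refine hQ a _ fun x => ?_
    rw [hD, ← mul_prod_erase univ _ (mem_univ x)]
    simp only [g, map_prod, eval_X]
    field_simp [ha x]
  refine ⟨Q * D, mul_ne_zero ?_ hD0, fun y hy => ?_⟩
  · intro h0
    obtain ⟨a, ha⟩ := exists_eval_ne (mul_ne_zero hG hD0)
    rw [map_mul, hD] at ha
    have ha' : ∀ x, a x ≠ 0 := fun x => prod_ne_zero_iff.1 (right_ne_zero_of_mul ha) x (mem_univ x)
    have h1 := hQ' (fun x => (a x)⁻¹) fun x => inv_ne_zero (ha' x)
    simp only [inv_inv] at h1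
    rw [h0, map_zero, hD] at h1
    have h2 : (∏ x, (a x)⁻¹) ^ N ≠ 0 :=
      pow_ne_zero _ (prod_ne_zero_iff.2 fun x _ => inv_ne_zero (ha' x))
    exact mul_ne_zero h2 (left_ne_zero_of_mul ha) h1.symm
  · rw [map_mul] at hy
    have h1 := right_ne_zero_of_mul hy
    rw [hD] at h1
    have h2 : ∀ x : Fin k × Fin (r + 1), y x.1 x.2 ≠ 0 := fun x =>
      prod_ne_zero_iff.1 h1 x (mem_univ x)
    have h3 := left_ne_zero_of_mul hy
    rw [hQ' _ h2] at h3
    exact ⟨fun i j => h2 (i, j), hGP (fun i j => (y i j)⁻¹) (right_ne_zero_of_mul h3)⟩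

theorem glinv_exact {k : ℕ} (d : ℕ) (m : Fin k → ℕ) (i : Fin k) (n : ℕ) :
    GLinv (r := 2) (k := k) fun p => ∃ F ∈ fatForms 2 d p m, ¬ VanishesToOrder F (p i) n := by
  intro M B hMB p h
  have hBM : B * M = 1 := mul_eq_one_comm.1 hMB
  obtain ⟨F, hF, hFn⟩ := h
  have hBp : ∀ i, B.mulVec (M.mulVec (p i)) = p i := fun i => by
    rw [Matrix.mulVec_mulVec, hBM, Matrix.one_mulVec]
  refine ⟨linSubst B F, ⟨linSubst_isHomogeneous B hF.1, fun i => ?_⟩, fun h => hFn ?_⟩
  · apply vanishes_linSubst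
    rw [hBp]
    exact hF.2 i
  · have h1 := vanishes_linSubst (A := M) (q := p i) h
    rwa [linSubst_comp, hBM, linSubst_one] at h1

/-- A common double curve for the transformed system gives one for the system. -/
theorem general_dbl_step {k d d₁ : ℕ} {m m₁ : Fin k → ℕ} (J : Fin 3 ↪ Fin k)
    (hJ : ∀ l, m (J l) ≤ d) (hd : ∑ l, m (J l) + d₁ = 2 * d)
    (hm : ∀ l, m₁ (J l) = d₁ + m (J l) - d) (hm' : ∀ i, (∀ l, J l ≠ i) → m₁ i = m i)
    (hne : generalDim 2 d m ≠ 0) (hD : ForGeneralPoints 2 k (Dbl d₁ m₁)) :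
    ForGeneralPoints 2 k (Dbl d m) := by
  have h1 := general_inv (conf_of_general (r := 2) J (glinv_dbl d₁ m₁) hD)
  have h2 : ∀ l : Fin 3, ForGeneralPoints 2 k fun y => ∃ F ∈ fatForms 2 d (cnf (r := 2) J y) m,
      ¬ VanishesToOrder F (Pi.single l 1) (m (J l) + 1) := by
    intro l
    have h3 := conf_of_general (r := 2) J (glinv_exact d m (J l) (m (J l) + 1))
      (exact_general m (J l) hne)
    refine h3.mono fun y hy => ?_
    rwa [cnf_J] at hy
  apply general_of_conf (r := 2) J (glinv_dbl d m)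
  refine ((h1.and (h2 0)).and ((h2 1).and (h2 2))).mono fun y hy => ?_
  obtain ⟨⟨⟨hy0, hyD⟩, e0⟩, e1, e2⟩ := hy
  refine dbl_step J hJ hd hm hm' hy0 (fun l => ?_) hyD
  fin_cases l
  · exact e0
  · exact e1
  · exact e2

theorem choose_two (n : ℕ) : 2 * ((n.choose 2 : ℕ) : ℤ) = n * (n - 1) := by
  induction n with
  | zero => simp
  | succ n ih =>
    rw [Nat.choose_succ_succ' n 1, Nat.choose_one_right]
    push_cast
    linear_combination ih

theorem sum_splitZ {k : ℕ} (J : Fin 3 ↪ Fin k) (f : Fin k → ℤ) :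
    ∑ i, f i = ∑ l : Fin 3, f (J l) + ∑ i ∈ univ.filter (fun i => ∀ l, J l ≠ i), f i := by
  classical
  rw [← sum_filter_add_sum_filter_not univ (fun i => ∀ l, J l ≠ i), add_comm]
  congr 1
  have h : (univ.filter fun i => ¬ ∀ l, J l ≠ i) = univ.map J := by
    ext i
    simp
  rw [h, sum_map]

/-- The virtual number of forms. -/
def virt {k : ℕ} (d : ℕ) (m : Fin k → ℕ) : ℤ :=
  ((d + 2).choose 2 : ℤ) - ∑ i, ((m i + 2 - 1).choose 2 : ℤ)

theorem virt_step {k d d₁ : ℕ} {m m₁ : Fin k → ℕ} (J : Fin 3 ↪ Fin k)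
    (hd : ∑ l, m (J l) + d₁ = 2 * d) (hm : ∀ l, m₁ (J l) = d₁ + m (J l) - d)
    (hm' : ∀ i, (∀ l, J l ≠ i) → m₁ i = m i)
    (hpair : ∀ a b : Fin 3, a ≠ b → m (J a) + m (J b) ≤ d + 1) : virt d₁ m₁ = virt d m := by
  have h1 : ∑ i ∈ univ.filter (fun i => ∀ l, J l ≠ i), ((m₁ i + 2 - 1).choose 2 : ℤ) =
      ∑ i ∈ univ.filter (fun i => ∀ l, J l ≠ i), ((m i + 2 - 1).choose 2 : ℤ) :=
    sum_congr rfl fun i hi => by rw [hm' i (mem_filter.1 hi).2]
  have hd3 : m (J 0) + m (J 1) + m (J 2) + d₁ = 2 * d := by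
    rw [Fin.sum_univ_three] at hd
    exact hd
  have p01 := hpair 0 1 (by decide)
  have p02 := hpair 0 2 (by decide)
  have p12 := hpair 1 2 (by decide)
  have key : ∀ (t : ℤ) (n : ℕ), -1 ≤ t → ((n : ℤ) = t ∨ (n = 0 ∧ t = -1)) →
      2 * (((n + 2 - 1).choose 2 : ℕ) : ℤ) = (t + 1) * t := by
    intro t n _ hn
    rw [choose_two]
    have e : n + 2 - 1 = n + 1 := by omega
    rw [e]
    push_cast
    rcases hn with hn | ⟨hn, ht⟩
    · rw [hn]
      ring
    · rw [hn, ht]
      norm_num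
  have c0 := key ((d : ℤ) - m (J 1) - m (J 2)) (m₁ (J 0)) (by omega) (by
    have := hm 0
    omega)
  have c1 := key ((d : ℤ) - m (J 0) - m (J 2)) (m₁ (J 1)) (by omega) (by
    have := hm 1
    omega)
  have c2 := key ((d : ℤ) - m (J 0) - m (J 1)) (m₁ (J 2)) (by omega) (by
    have := hm 2
    omega)
  have b0 := key (m (J 0)) (m (J 0)) (by omega) (Or.inl rfl)
  have b1 := key (m (J 1)) (m (J 1)) (by omega) (Or.inl rfl)
  have b2 := key (m (J 2)) (m (J 2)) (by omega) (Or.inl rfl)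
  have e1 := choose_two (d₁ + 2)
  have e2 := choose_two (d + 2)
  have hd1 : (d₁ : ℤ) = 2 * d - m (J 0) - m (J 1) - m (J 2) := by omega
  unfold virt
  rw [sum_splitZ J fun i => ((m₁ i + 2 - 1).choose 2 : ℤ),
    sum_splitZ J fun i => ((m i + 2 - 1).choose 2 : ℤ), h1, Fin.sum_univ_three, Fin.sum_univ_three]
  push_cast at e1 e2
  rw [hd1] at e1
  linarith [c0, c1, c2, b0, b1, b2, e1, e2]

/-- The general dimension is invariant. -/
theorem generalDim_step {k d d' : ℕ} {m m' : Fin k → ℕ} (h : Cremona 2 d m d' m') :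
    generalDim 2 d' m' = generalDim 2 d m := by
  have h1 := (h.general (generalDim 2 d m)).1 (generalDim_spec 2 d m)
  obtain ⟨p, hp1, hp2⟩ := exists_of_general (h1.and (generalDim_spec 2 d' m'))
  exact hp2.symm.trans hp1

/-- Without a common double curve the virtual number does not change. -/
theorem virt_eq {k d d' : ℕ} {m m' : Fin k → ℕ} (h : Cremona 2 d m d' m')
    (hne : generalDim 2 d m ≠ 0) (hD : ¬ ForGeneralPoints 2 k (Dbl d m)) :
    virt d' m' = virt d m := by
  induction h with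
  | refl d m => rfl
  | @step d d₁ d' m m₁ m' J hJ hd hm hm' h ih =>
    have hpair : ∀ a b : Fin 3, a ≠ b → m (J a) + m (J b) ≤ d + 1 := by
      intro a b hab
      by_contra hcon
      apply hD
      apply general_of_conf (r := 2) J (glinv_dbl d m)
      refine ⟨1, one_ne_zero, fun y _ => dbl_pair J a b hab (by omega) y⟩
    have h1 := generalDim_step (Cremona.step J hJ hd hm hm' (Cremona.refl d₁ m₁))
    rw [ih (by rwa [h1]) fun hD' => hD (general_dbl_step J hJ hd hm hm' hne hD'),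
      virt_step J hd hm hm' hpair]

/-- If for general points some member has isolated singularities at all the points then the
virtual number does not change under quadratic transformations. -/
theorem virt_eq_of_isolated {k d d' : ℕ} {m m' : Fin k → ℕ} (h : Cremona 2 d m d' m')
    (hiso : ForGeneralPoints 2 k fun p => ∃ F ∈ fatForms 2 d p m, ∀ i, IsolatedAt F (p i)) :
    virt d' m' = virt d m := by
  rcases Nat.eq_zero_or_pos k with hk | hk
  · subst hk
    cases h with
    | refl => rfl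
    | step J => exact (J 0).elim0
  · refine virt_eq h (fun h0 => ?_) (not_dbl_of_isolated hiso)
    obtain ⟨p, ⟨⟨F, hF, hFi⟩, hp⟩, hp0⟩ := exists_of_general
      ((hiso.and (generalDim_spec 2 d m)).and (general_ne_zero 2 k))
    rw [h0, Submodule.finrank_eq_zero] at hp
    rw [hp, Submodule.mem_bot] at hF
    subst hF
    set i : Fin k := ⟨0, hk⟩
    obtain ⟨e, g, -, hgq, hg⟩ := hFi i
    let L : MvPolynomial (Fin 3) ℂ := C (p i 0) * X 1 - C (p i 1) * X 0
    have hL : L ≠ 0 := by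
      intro h1
      have h2 := congrArg (eval (Pi.single 1 1 : Fin 3 → ℂ)) h1
      simp [L] at h2
      exact hp0 i h2
    have hg0 : g ≠ 0 := by
      rintro rfl
      exact hgq (map_zero _)
    obtain ⟨x, hx⟩ := exists_eval_ne (mul_ne_zero hg0 hL)
    rw [map_mul] at hx
    obtain ⟨t, rfl⟩ := hg x (fun j => by rw [map_zero, map_zero]) (left_ne_zero_of_mul hx)
    apply right_ne_zero_of_mul hx
    simp only [L, map_sub, map_mul, eval_C, eval_X, Pi.smul_apply, smul_eq_mul]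
    ring

end Pool.Agent.H18.Sq
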