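import Pool.Agent.H18.Sq.Ker
import Pool.Agent.H18.Ub.VDim

/-!
# For general points the multiplicities of a general member are the assigned ones
-/

namespace Pool.Agent.H18.Sq

open MvPolynomial Finset Pool.Agent.H18.Fat

/-- The entries of the matrix of conditions. -/
noncomputable def tE {r k : ℕ} (i : Fin k) (β α : Fin (r + 1) → ℕ) :
    MvPolynomial (Fin k × Fin (r + 1)) ℂ :=
  ∏ j, (C ((α j).choose (β j) : ℂ) * X (i, j) ^ (α j - β j))

theorem pderiv_prod_zero {σ ι : Type*} (x : σ) (S : Finset ι) (g : ι → MvPolynomial σ ℂ)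
    (h : ∀ j ∈ S, pderiv x (g j) = 0) : pderiv x (∏ j ∈ S, g j) = 0 := by
  classical
  induction S using Finset.induction_on with
  | empty => rw [prod_empty, pderiv_one]
  | insert a S ha ih =>
    rw [prod_insert ha, pderiv_mul, h a (mem_insert_self _ _),
      ih fun j hj => h j (mem_insert_of_mem hj)]
    simp

theorem pderiv_tE_ne {r k : ℕ} {i l : Fin k} (hil : i ≠ l) (j : Fin (r + 1))
    (β α : Fin (r + 1) → ℕ) : pderiv (l, j) (tE i β α) = 0 := by
  unfold tE
  refine pderiv_prod_zero _ _ _ fun j' _ => ?_
  rw [pderiv_C_mul, pderiv_pow, pderiv_X_of_ne, mul_zero, mul_zero]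
  intro h
  exact hil (congrArg Prod.fst h)

theorem pderiv_tE {r k : ℕ} (l : Fin k) (j : Fin (r + 1)) (β α : Fin (r + 1) → ℕ) :
    pderiv (l, j) (tE l β α) =
      ((β j + 1 : ℕ) : MvPolynomial (Fin k × Fin (r + 1)) ℂ) *
        tE l (Function.update β j (β j + 1)) α := by
  classical
  unfold tE
  rw [← mul_prod_erase univ _ (mem_univ j), pderiv_mul, pderiv_prod_zero, mul_zero, add_zero,
    ← mul_prod_erase univ (fun j' => C ((α j').choose ((Function.update β j (β j + 1)) j') : ℂ) *
      X (l, j') ^ (α j' - (Function.update β j (β j + 1)) j')) (mem_univ j), ← mul_assoc]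
  · congr 1
    · rw [Function.update_self, pderiv_C_mul, pderiv_pow, pderiv_X_self, mul_one]
      have h1 := Nat.choose_succ_right_eq (α j) (β j)
      have h2 : (C ((α j).choose (β j) : ℂ) : MvPolynomial (Fin k × Fin (r + 1)) ℂ) *
          ((α j - β j : ℕ) : MvPolynomial (Fin k × Fin (r + 1)) ℂ) =
          ((β j + 1 : ℕ) : MvPolynomial (Fin k × Fin (r + 1)) ℂ) *
            C ((α j).choose (β j + 1) : ℂ) := by
        rw [map_natCast, map_natCast]
        norm_cast
        rw [← h1, mul_comm]
      rw [Nat.sub_add_eq, ← mul_assoc, h2]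
      ring
    · refine prod_congr rfl fun j' hj' => ?_
      rw [Function.update_of_ne (ne_of_mem_erase hj')]
  · intro j' hj'
    rw [pderiv_C_mul, pderiv_pow, pderiv_X_of_ne, mul_zero, mul_zero]
    intro h
    exact (ne_of_mem_erase hj') (congrArg Prod.snd h)

/-- The `x`-th condition. -/
theorem genFullMat_mulVec {r d k : ℕ} (m : Fin k → ℕ)
    (f : mons (r + 1) d → MvPolynomial (Fin k × Fin (r + 1)) ℂ)
    (x : Σ i : Fin k, {β // β ∈ full (r + 1) (m i)}) :
    (genFullMat r d m).mulVec f x = ∑ α : mons (r + 1) d, tE x.1 ⇑x.2.1 ⇑α.1 * f α := rfl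

theorem totalDegree_pderiv {σ : Type*} (i : σ) (f : MvPolynomial σ ℂ) (h : pderiv i f ≠ 0) :
    (pderiv i f).totalDegree < f.totalDegree := by
  classical
  have h1 : ∀ s ∈ (pderiv i f).support, (s.sum fun _ e => e) + 1 ≤ f.totalDegree := by
    intro s hs
    rw [mem_support_iff, coeff_pderiv] at hs
    have h2 := le_totalDegree (mem_support_iff.2 (left_ne_zero_of_mul hs))
    rw [Finsupp.sum_add_index' (fun _ => rfl) (fun _ _ _ => rfl), Finsupp.sum_single_index rfl]
      at h2
    exact h2
  obtain ⟨s, hs⟩ := support_nonempty.2 h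
  have h3 := h1 s hs
  have h4 : (pderiv i f).totalDegree ≤ f.totalDegree - 1 := by
    rw [totalDegree]
    refine Finset.sup_le fun s hs => ?_
    have := h1 s hs
    omega
  omega

/-- A polynomial with vanishing derivatives does not depend on the variables. -/
theorem eval_eq_of_pderiv {r k : ℕ} (l : Fin k) (f : MvPolynomial (Fin k × Fin (r + 1)) ℂ)
    (h : ∀ j, pderiv (l, j) f = 0) (a a' : Fin k × Fin (r + 1) → ℂ)
    (ha : ∀ x : Fin k × Fin (r + 1), x.1 ≠ l → a x = a' x) : eval a f = eval a' f := by
  classical
  rw [eval_eq, eval_eq]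
  refine sum_congr rfl fun s hs => ?_
  congr 1
  refine prod_congr rfl fun x hx => ?_
  by_cases hxl : x.1 = l
  · exfalso
    obtain ⟨i, j⟩ := x
    change i = l at hxl
    subst hxl
    have h1 := congrArg (coeff (s - Finsupp.single (i, j) 1)) (h j)
    rw [coeff_pderiv, coeff_zero] at h1
    have h2 : s - Finsupp.single (i, j) 1 + Finsupp.single (i, j) 1 = s := by
      apply tsub_add_cancel_of_le
      rw [Finsupp.single_le_iff]
      have := Finsupp.mem_support_iff.1 hx
      omega
    rw [h2] at h1
    rcases mul_eq_zero.1 h1 with h3 | h3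
    · exact (mem_support_iff.1 hs) h3
    · exact absurd h3 (Nat.cast_add_one_ne_zero _)
  · rw [ha x hxl]

/-- If, for general points, the multiplicity at `p l` is always larger than assigned then there is
no nonzero polynomial family of forms. -/
theorem no_family {r d k : ℕ} (m : Fin k → ℕ) (l : Fin k)
    {G : MvPolynomial (Fin k × Fin (r + 1)) ℂ} (hG : G ≠ 0)
    (hEq : ∀ p : Fin k → Fin (r + 1) → ℂ, eval (fun x => p x.1 x.2) G ≠ 0 →
      fatForms r d p m ≤ fatForms r d p (Function.update m l (m l + 1))) :
    ∀ (n : ℕ) (f : mons (r + 1) d → MvPolynomial (Fin k × Fin (r + 1)) ℂ), f ≠ 0 →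
      (genFullMat r d m).mulVec f = 0 → ∑ α, (f α).totalDegree ≠ n := by
  classical
  intro n
  induction n using Nat.strong_induction_on with
  | _ n IH =>
  intro f hf0 hf hn
  -- the larger conditions hold identically
  have hplus : ∀ (i : Fin k) (β : Fin (r + 1) →₀ ℕ),
      β.degree < Function.update m l (m l + 1) i → ∑ α : mons (r + 1) d, tE i ⇑β ⇑α.1 * f α = 0 := by
    intro i β hβ
    have h1 : G * (∑ α : mons (r + 1) d, tE i ⇑β ⇑α.1 * f α) = 0 := by
      apply MvPolynomial.funext
      intro a
      rw [map_zero, map_mul]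
      by_cases ha : eval a G = 0
      · rw [ha, zero_mul]
      · set p : Fin k → Fin (r + 1) → ℂ := fun i j => a (i, j) with hp
        have hmem : toPoly (r + 1) d (fun α => eval a (f α)) ∈ fatForms r d p m := by
          rw [toPoly_mem_fatForms_full, ← genFullMat_map]
          funext x
          have h2 := congrArg (eval a) (congrFun hf x)
          rw [Pi.zero_apply, map_zero] at h2
          rw [Pi.zero_apply, ← h2, genFullMat_mulVec, map_sum]
          simp only [Matrix.mulVec, dotProduct, Matrix.map_apply, map_mul]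
          rfl
        have hmem' := hEq p ha hmem
        rw [toPoly_mem_fatForms_full, ← genFullMat_map] at hmem'
        have h3 := congrFun hmem' ⟨i, β, mem_full.2 hβ⟩
        have h4 : eval a (∑ α : mons (r + 1) d, tE i ⇑β ⇑α.1 * f α) = 0 := by
          rw [Pi.zero_apply] at h3
          rw [← h3, map_sum]
          simp only [Matrix.mulVec, dotProduct, Matrix.map_apply, map_mul]
          rfl
        rw [h4, mul_zero]
    rcases mul_eq_zero.1 h1 with h2 | h2
    · exact absurd h2 hG
    · exact h2
  -- the derivatives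
  have hder : ∀ j : Fin (r + 1), (fun α => pderiv (l, j) (f α)) = 0 := by
    intro j
    by_contra hne
    have hker : (genFullMat r d m).mulVec (fun α => pderiv (l, j) (f α)) = 0 := by
      funext x
      obtain ⟨i, β, hβ⟩ := x
      rw [genFullMat_mulVec, Pi.zero_apply]
      simp only
      have h1 : pderiv (l, j) (∑ α : mons (r + 1) d, tE i ⇑β ⇑α.1 * f α) = 0 := by
        have h2 := congrFun hf ⟨i, β, hβ⟩
        rw [genFullMat_mulVec, Pi.zero_apply] at h2
        simp only at h2
        rw [h2, map_zero]
      rw [map_sum] at h1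
      simp only [pderiv_mul, sum_add_distrib] at h1
      by_cases hil : i = l
      · subst hil
        have h3 : ∑ α : mons (r + 1) d, pderiv (i, j) (tE i ⇑β ⇑α.1) * f α = 0 := by
          have h4 := hplus i (β + Finsupp.single j 1) (by
            rw [Function.update_self, map_add, Finsupp.degree_single]
            have := mem_full.1 hβ
            omega)
          have h5 : (⇑(β + Finsupp.single j 1 : Fin (r + 1) →₀ ℕ) : Fin (r + 1) → ℕ) =
              Function.update ⇑β j (β j + 1) := by
            funext j'
            by_cases hj : j' = j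
            · subst hj
              simp
            · rw [Function.update_of_ne hj, Finsupp.add_apply, Finsupp.single_eq_of_ne hj, add_zero]
          rw [h5] at h4
          rw [sum_congr rfl fun α _ => by rw [pderiv_tE, mul_assoc], ← mul_sum, h4, mul_zero]
        rw [h3, zero_add] at h1
        exact h1
      · have h3 : ∑ α : mons (r + 1) d, pderiv (l, j) (tE i ⇑β ⇑α.1) * f α = 0 := by
          refine sum_eq_zero fun α _ => ?_
          rw [pderiv_tE_ne hil, zero_mul]
        rw [h3, zero_add] at h1
        exact h1
    refine IH _ ?_ _ hne hker rfl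
    rw [← hn]
    obtain ⟨α₀, hα₀⟩ : ∃ α, pderiv (l, j) (f α) ≠ 0 := by
      by_contra hcon
      push Not at hcon
      exact hne (funext hcon)
    refine sum_lt_sum (fun α _ => ?_) ⟨α₀, mem_univ _, totalDegree_pderiv _ _ hα₀⟩
    by_cases h0 : pderiv (l, j) (f α) = 0
    · rw [h0, totalDegree_zero]
      exact Nat.zero_le _
    · exact (totalDegree_pderiv _ _ h0).le
  -- the family does not depend on `p l` and vanishes at `p l`
  obtain ⟨α₀, hα₀⟩ : ∃ α, f α ≠ 0 := by
    by_contra hcon
    push Not at hcon
    exact hf0 (funext hcon)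
  obtain ⟨a, ha⟩ : ∃ a, eval a (f α₀) ≠ 0 := by
    by_contra hcon
    push Not at hcon
    exact hα₀ (MvPolynomial.funext fun x => by rw [hcon x, map_zero])
  apply ha
  have h1 : toPoly (r + 1) d (fun α => eval a (f α)) = 0 := by
    apply MvPolynomial.funext
    intro x
    rw [map_zero]
    have h2 := hplus l 0 (by
      rw [Function.update_self, map_zero]
      omega)
    set a' : Fin k × Fin (r + 1) → ℂ := fun y => if y.1 = l then x y.2 else a y with ha'
    have h3 := congrArg (eval a') h2
    rw [map_zero, map_sum] at h3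
    rw [toPoly_apply, map_sum, ← h3]
    refine sum_congr rfl fun α _ => ?_
    rw [map_mul, eval_monomial]
    have h4 : eval a' (f α) = eval a (f α) := by
      refine eval_eq_of_pderiv l (f α) (fun j => congrFun (hder j) α) _ _ fun y hy => ?_
      rw [ha']
      simp only
      rw [if_neg hy]
    rw [h4, mul_comm]
    congr 1
    unfold tE
    rw [map_prod, Finsupp.prod_fintype _ _ fun i => pow_zero _]
    refine prod_congr rfl fun j _ => ?_
    simp [ha']
  have h2 := toPoly_injective _ _ (h1.trans (map_zero (toPoly (r + 1) d)).symm)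
  exact congrFun h2 α₀

/-- If there are forms for general points, the general dimension drops when one multiplicity is
increased. -/
theorem generalDim_lt {r d k : ℕ} (m : Fin k → ℕ) (l : Fin k) (hne : Pool.Agent.H18.Fat.generalDim r d m ≠ 0) :
    generalDim r d (Function.update m l (m l + 1)) < generalDim r d m := by
  classical
  by_contra hcon
  push Not at hcon
  obtain ⟨G, hG, hGp⟩ := (Ub.generalDim_spec r d m).and
    (Ub.generalDim_spec r d (Function.update m l (m l + 1)))
  have hEq : ∀ p : Fin k → Fin (r + 1) → ℂ, eval (fun x => p x.1 x.2) G ≠ 0 →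
      fatForms r d p m ≤ fatForms r d p (Function.update m l (m l + 1)) := by
    intro p hp
    obtain ⟨h1, h2⟩ := hGp p hp
    have hle : fatForms r d p (Function.update m l (m l + 1)) ≤ fatForms r d p m := by
      rintro F ⟨hF1, hF2⟩
      refine ⟨hF1, fun i β hβ => hF2 i β (lt_of_lt_of_le hβ ?_)⟩
      by_cases hi : i = l
      · subst hi
        rw [Function.update_self]
        omega
      · rw [Function.update_of_ne hi]
    have := Submodule.eq_of_le_of_finrank_le hle (by rw [h1, h2]; exact hcon)
    rw [this]
  obtain ⟨f, hf0, hf⟩ := exists_ker (genFullMat r d m) fun G' hG' => by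
    obtain ⟨a, ha⟩ : ∃ a, eval a (G * G') ≠ 0 := by
      by_contra hcon
      push Not at hcon
      exact mul_ne_zero hG hG' (MvPolynomial.funext fun x => by rw [hcon x, map_zero])
    rw [map_mul] at ha
    refine ⟨a, right_ne_zero_of_mul ha, ?_⟩
    have h1 := (hGp (fun i j => a (i, j)) (left_ne_zero_of_mul ha)).1
    have h2 : fatForms r d (fun i j => a (i, j)) m ≠ ⊥ := by
      intro h0
      rw [h0, finrank_bot] at h1
      exact hne h1.symm
    obtain ⟨F, hF, hF0⟩ := Submodule.exists_mem_ne_zero_of_ne_bot h2
    refine ⟨fun α => coeff α.1 F, ?_, ?_⟩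
    · intro h3
      apply hF0
      rw [← exists_toPoly hF.1, h3, map_zero]
    · have h4 : toPoly (r + 1) d (fun α => coeff α.1 F) ∈ fatForms r d (fun i j => a (i, j)) m := by
        rw [exists_toPoly hF.1]
        exact hF
      rw [toPoly_mem_fatForms_full, ← genFullMat_map] at h4
      exact h4
  exact no_family m l hG hEq _ f hf0 hf rfl

/-- For general points some member has exactly the assigned multiplicity at `p l`. -/
theorem exact_general {r d k : ℕ} (m : Fin k → ℕ) (l : Fin k) (hne : generalDim r d m ≠ 0) :
    ForGeneralPoints r k fun p => ∃ F ∈ fatForms r d p m, ¬ VanishesToOrder F (p l) (m l + 1) := by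
  refine ((Ub.generalDim_spec r d m).and
    (Ub.generalDim_spec r d (Function.update m l (m l + 1)))).mono fun p hp => ?_
  obtain ⟨h1, h2⟩ := hp
  by_contra hcon
  push Not at hcon
  have hle : fatForms r d p m ≤ fatForms r d p (Function.update m l (m l + 1)) := by
    intro F hF
    refine ⟨hF.1, fun i => ?_⟩
    by_cases hi : i = l
    · subst hi
      rw [Function.update_self]
      exact hcon F hF
    · rw [Function.update_of_ne hi]
      exact hF.2 i
  have h3 := Submodule.finrank_mono hle
  rw [h1, h2] at h3
  have h4 := generalDim_lt m l hne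
  omega

end Pool.Agent.H18.Sq
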