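import Pool.Agent.H18.Sq.Std

/-!
# Plane systems with at most nine large multiplicities
-/

namespace Pool.Agent.H18.Sq

open MvPolynomial Finset Pool.Agent.H18.Fat Pool.Agent.H18.Iso Pool.Agent.H18.Pr Pool.Agent.H18.Ub
  Pool.Agent.H18.Cub

/-- Either non-special or equivalent to a system of small degree (or, for nine large
multiplicities, of small anticanonical degree). -/
theorem nine : ∃ K E : ℕ, ∀ M : ℕ, 1 ≤ M → ∀ (k d : ℕ) (m : Fin k → ℕ) (J : Finset (Fin k)),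
    3 ≤ k → J.card ≤ 9 → (∀ i, i ∉ J → m i ≤ M) →
    (ForGeneralPoints 2 k fun p => ∃ F ∈ fatForms 2 d p m, ∀ i, IsolatedAt F (p i)) →
    (ForGeneralPoints 2 k fun p => ImposesMaximalConditions 2 d p m) ∨
      ∃ (d' : ℕ) (m' : Fin k → ℕ), Cremona 2 d m d' m' ∧ d' ≤ d ∧ (∀ i, m' i ≤ m i) ∧
        (∀ S : Finset (Fin k), S.card ≤ 3 → ∑ i ∈ S, m' i ≤ d') ∧
        (d' < K * M ^ E ∨ (J.card = 9 ∧ 3 * d' < ∑ i ∈ J, m' i + K * M ^ E)) := by
  obtain ⟨K, E, H⟩ := Pool.Agent.H18.Ta.plane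
  refine ⟨K, E, fun M hM k d m J hk hJ hsmall hiso => ?_⟩
  obtain ⟨d', m', hcr, hdd, hle, hstd⟩ :=
    exists_standard hk d m (ne_zero_of_isolated (by omega) hiso)
  by_cases hd' : K * M ^ E ≤ d' ∧ (J.card = 9 → ∑ i ∈ J, m' i + K * M ^ E ≤ 3 * d')
  · left
    exact maximal_of_cremona hcr hiso (H M hM k d' m' J hJ
      (fun i hi => (hle i).trans (hsmall i hi)) hstd hd'.1 hd'.2)
  · right
    refine ⟨d', m', hcr, hdd, hle, hstd, ?_⟩
    rw [not_and_or, Classical.not_imp] at hd'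
    rcases hd' with h | ⟨h1, h2⟩
    · exact Or.inl (by omega)
    · exact Or.inr ⟨h1, by omega⟩

theorem choose_lt (d D : ℕ) (h : d < D) : ((d + 2).choose 2 : ℤ) < ((D : ℤ) + 1) ^ 2 := by
  have h1 := choose_two (d + 2)
  push_cast at h1 ⊢
  have h2 : (d : ℤ) + 1 ≤ D := by exact_mod_cast h
  nlinarith

theorem virt_le {k d : ℕ} (m : Fin k → ℕ) : virt d m ≤ ((d + 2).choose 2 : ℤ) := by
  unfold virt
  have : (0 : ℤ) ≤ ∑ i, ((m i + 2 - 1).choose 2 : ℤ) := sum_nonneg fun i _ => by positivity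
  linarith

/-- Nine multiplicities with small anticanonical degree. -/
theorem virt_nine {k d D : ℕ} (m : Fin k → ℕ) (J : Finset (Fin k)) (hJ : J.card = 9)
    (h : 3 * d < ∑ i ∈ J, m i + D) (hD : D ≤ 3 * d) :
    virt d m ≤ ((D : ℤ) + 1) * (d + 1) := by
  have h1 : virt d m ≤ ((d + 2).choose 2 : ℤ) - ∑ i ∈ J, ((m i + 2 - 1).choose 2 : ℤ) := by
    unfold virt
    have : ∑ i ∈ J, ((m i + 2 - 1).choose 2 : ℤ) ≤ ∑ i, ((m i + 2 - 1).choose 2 : ℤ) :=
      sum_le_sum_of_subset_of_nonneg (subset_univ J) fun i _ _ => by positivity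
    linarith
  have h2 : 2 * ∑ i ∈ J, ((m i + 2 - 1).choose 2 : ℤ) =
      ∑ i ∈ J, (m i : ℤ) ^ 2 + ∑ i ∈ J, (m i : ℤ) := by
    rw [mul_sum, ← sum_add_distrib]
    refine sum_congr rfl fun i _ => ?_
    rw [choose_two]
    have e : m i + 2 - 1 = m i + 1 := by omega
    rw [e]
    push_cast
    ring
  have h3 : (∑ i ∈ J, (m i : ℤ)) ^ 2 ≤ 9 * ∑ i ∈ J, (m i : ℤ) ^ 2 := by
    have := sq_sum_le_card_mul_sum_sq (s := J) (f := fun i => (m i : ℤ))
    rw [hJ] at this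
    exact_mod_cast this
  have h4 := choose_two (d + 2)
  push_cast at h4
  have h5 : 3 * (d : ℤ) < ∑ i ∈ J, (m i : ℤ) + D := by exact_mod_cast h
  have h6 : (D : ℤ) ≤ 3 * d := by exact_mod_cast hD
  set s : ℤ := ∑ i ∈ J, (m i : ℤ) with hs
  set q : ℤ := ∑ i ∈ J, (m i : ℤ) ^ 2 with hq
  have hD0 : (0 : ℤ) ≤ D := Int.natCast_nonneg _
  have hd0 : (0 : ℤ) ≤ d := Int.natCast_nonneg _
  have h7 : (3 * (d : ℤ) - D) ^ 2 ≤ s ^ 2 := by
    apply pow_le_pow_left₀ (by linarith) (by linarith)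
  nlinarith [mul_nonneg hD0 hd0]

/-- Systems of large virtual dimension. -/
theorem nine_virt : ∃ K E : ℕ, ∀ M : ℕ, 1 ≤ M → ∀ (k d : ℕ) (m : Fin k → ℕ)
    (J : Finset (Fin k)), 3 ≤ k → J.card ≤ 9 → (∀ i, i ∉ J → m i ≤ M) →
    (ForGeneralPoints 2 k fun p => ∃ F ∈ fatForms 2 d p m, ∀ i, IsolatedAt F (p i)) →
    ((ForGeneralPoints 2 k fun p => ImposesMaximalConditions 2 d p m) ∨
      ∃ (d' : ℕ) (m' : Fin k → ℕ), Cremona 2 d m d' m' ∧ d' ≤ d ∧ (∀ i, m' i ≤ m i) ∧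
        (∀ S : Finset (Fin k), S.card ≤ 3 → ∑ i ∈ S, m' i ≤ d') ∧
        (d' < K * M ^ E ∨ (J.card = 9 ∧ 3 * d' < ∑ i ∈ J, m' i + K * M ^ E))) ∧
    (J.card ≤ 8 ∧ ((K * M ^ E : ℕ) : ℤ) ≤ virt d m ∨
        ((K * M ^ E * (d + 1) : ℕ) : ℤ) ≤ virt d m →
      ForGeneralPoints 2 k fun p => ImposesMaximalConditions 2 d p m) := by
  obtain ⟨K, E, H⟩ := nine
  refine ⟨(K + 2) ^ 2, 2 * E, fun M hM k d m J hk hJ hsmall hiso => ?_⟩
  set D := K * M ^ E with hD
  have hKM : D + 2 ≤ (K + 2) * M ^ E := by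
    have := Nat.one_le_pow E M hM
    rw [add_mul]
    omega
  have h3 : (D + 2) ^ 2 ≤ (K + 2) ^ 2 * M ^ (2 * E) := by
    calc (D + 2) ^ 2 ≤ ((K + 2) * M ^ E) ^ 2 := Nat.pow_le_pow_left hKM 2
      _ = _ := by rw [mul_pow, ← pow_mul, mul_comm E 2]
  generalize (K + 2) ^ 2 * M ^ (2 * E) = D' at h3
  have h30 : D ≤ D' := by nlinarith
  have h3Z : ((D : ℤ) + 2) ^ 2 ≤ D' := by exact_mod_cast h3
  have hmain := H M hM k d m J hk hJ hsmall hiso
  refine ⟨?_, fun hv => ?_⟩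
  · rcases hmain with h | ⟨d', m', h1, h2, h4, h5, h6⟩
    · exact Or.inl h
    · refine Or.inr ⟨d', m', h1, h2, h4, h5, ?_⟩
      rcases h6 with h6 | ⟨h6, h7⟩
      · exact Or.inl (lt_of_lt_of_le h6 h30)
      · exact Or.inr ⟨h6, by omega⟩
  · rcases hmain with h | ⟨d', m', hcr, hdd, -, -, h5⟩
    · exact h
    · exfalso
      have hvv := virt_eq_of_isolated hcr hiso
      have hDv : ((D' : ℕ) : ℤ) ≤ virt d m := by
        rcases hv with ⟨-, hv⟩ | hv
        · exact hv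
        · refine le_trans ?_ hv
          exact_mod_cast Nat.le_mul_of_pos_right D' (Nat.succ_pos d)
      have hD0 : (0 : ℤ) ≤ D := Int.natCast_nonneg _
      have hsmallcase : ¬ d' < D := by
        intro hd'
        have h1 := choose_lt d' D hd'
        have h2 := virt_le (d := d') m'
        rw [hvv] at h2
        nlinarith
      rcases h5 with h5 | ⟨h5, h6⟩
      · exact hsmallcase h5
      · rcases hv with ⟨h8, -⟩ | hv
        · omega
        · have h7 : virt d' m' ≤ ((D : ℤ) + 1) * (d' + 1) :=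
            virt_nine m' J h5 h6 (by omega)
          rw [hvv] at h7
          have h8 : ((D : ℤ) + 1) * (d' + 1) ≤ ((D : ℤ) + 1) * (d + 1) := by
            have : (d' : ℤ) ≤ d := by exact_mod_cast hdd
            nlinarith
          have h9 : ((D : ℤ) + 2) ^ 2 * (d + 1) ≤ (D' : ℤ) * (d + 1) := by
            have : (0 : ℤ) ≤ (d : ℤ) + 1 := by positivity
            nlinarith
          push_cast at hv
          have h10 : ((D : ℤ) + 1) * (d + 1) < ((D : ℤ) + 2) ^ 2 * (d + 1) := by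
            have : (0 : ℤ) < (d : ℤ) + 1 := by positivity
            nlinarith
          linarith

end Pool.Agent.H18.Sq
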