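import Pool.Agent.H18.FatToric

/-!
# A kernel over the polynomial ring
-/

namespace Pool.Agent.H18.Sq

open MvPolynomial Pool.Agent.H18.Fat

/-- If a matrix with polynomial entries has a kernel at a dense set of parameters then it has a
kernel over the polynomial ring. -/
theorem exists_ker {σ R K : Type*} [Fintype R] [Fintype K]
    (N : Matrix R K (MvPolynomial σ ℂ))
    (h : ∀ G : MvPolynomial σ ℂ, G ≠ 0 → ∃ a, eval a G ≠ 0 ∧
      ∃ f : K → ℂ, f ≠ 0 ∧ (N.map (eval a)).mulVec f = 0) :
    ∃ f : K → MvPolynomial σ ℂ, f ≠ 0 ∧ N.mulVec f = 0 := by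
  classical
  by_contra hcon
  push Not at hcon
  have hcon' : ∀ f : K → MvPolynomial σ ℂ, N.mulVec f = 0 → f = 0 := by
    intro f hf
    by_contra hne
    exact hcon f hne hf
  set L := FractionRing (MvPolynomial σ ℂ) with hL
  set ι := algebraMap (MvPolynomial σ ℂ) L with hι
  have hinj : Function.Injective ι := IsFractionRing.injective _ _
  have hker : LinearMap.ker (N.map ι).mulVecLin = ⊥ := by
    rw [LinearMap.ker_eq_bot']
    intro v hv
    rw [Matrix.mulVecLin_apply] at hv
    obtain ⟨b, hb⟩ := IsLocalization.exist_integer_multiples_of_finite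
      (nonZeroDivisors (MvPolynomial σ ℂ)) v
    choose f hf using hb
    have hb0 : ι b ≠ 0 := by
      intro h0
      exact nonZeroDivisors.ne_zero b.2 (hinj (h0.trans (map_zero ι).symm))
    have hf' : ∀ i, ι (f i) = ι b * v i := fun i => by
      rw [hf i, Algebra.smul_def]
    have h1 : N.mulVec f = 0 := by
      funext i
      apply hinj
      rw [Pi.zero_apply, map_zero]
      have h2 := congrFun hv i
      unfold Matrix.mulVec dotProduct at h2 ⊢
      rw [map_sum, Finset.sum_congr rfl fun j _ => by
        rw [map_mul, hf' j, mul_left_comm], ← Finset.mul_sum]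
      rw [Pi.zero_apply] at h2
      have h3 : ∑ j, ι (N i j) * v j = 0 := h2
      rw [h3, mul_zero]
    have h2 := hcon' f h1
    funext i
    have h3 := hf' i
    rw [h2, Pi.zero_apply, map_zero] at h3
    rcases mul_eq_zero.1 h3.symm with h4 | h4
    · exact absurd h4 hb0
    · exact h4
  obtain ⟨g, hg⟩ := LinearMap.exists_leftInverse_of_injective _ hker
  obtain ⟨B, hBg⟩ : ∃ B : Matrix K R L, Matrix.toLin' B = g := ⟨LinearMap.toMatrix' g, by simp⟩
  have hB : B * (N.map ι) = 1 := by
    apply Matrix.toLin'.injective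
    rw [Matrix.toLin'_mul, hBg, Matrix.toLin'_one]
    exact hg
  obtain ⟨b, hb⟩ := IsLocalization.exist_integer_multiples_of_finite
    (nonZeroDivisors (MvPolynomial σ ℂ)) (fun x : K × R => B x.1 x.2)
  choose B' hB' using hb
  have hB'' : ∀ i j, ι (B' (i, j)) = ι b * B i j := fun i j => by
    rw [hB' (i, j), Algebra.smul_def]
  obtain ⟨a, ha, f, hf, hNf⟩ := h b (nonZeroDivisors.ne_zero b.2)
  apply hf
  have h1 : ∀ i j, ∑ x, B' (i, x) * N x j = if i = j then (b : MvPolynomial σ ℂ) else 0 := by
    intro i j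
    apply hinj
    have h2 := congrFun (congrFun hB i) j
    rw [Matrix.mul_apply, Matrix.one_apply] at h2
    rw [map_sum, Finset.sum_congr rfl fun x _ => by
      rw [map_mul, hB'' i x, mul_assoc], ← Finset.mul_sum]
    have h3 : ∑ x, B i x * ι (N x j) = if i = j then 1 else 0 := h2
    rw [h3]
    split_ifs <;> simp
  funext i
  have h2 : ∑ x, eval a (B' (i, x)) * ((N.map (eval a)).mulVec f) x = 0 := by
    rw [hNf]
    simp
  have h3 : ∑ x, eval a (B' (i, x)) * ((N.map (eval a)).mulVec f) x =
      ∑ j, eval a (∑ x, B' (i, x) * N x j) * f j := by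
    simp only [Matrix.mulVec, dotProduct, Matrix.map_apply, map_sum, map_mul, Finset.mul_sum,
      Finset.sum_mul]
    rw [Finset.sum_comm]
    exact Finset.sum_congr rfl fun j _ => Finset.sum_congr rfl fun x _ => by ring
  rw [h3] at h2
  simp only [h1] at h2
  rw [Finset.sum_eq_single i] at h2
  · rw [if_pos rfl] at h2
    rcases mul_eq_zero.1 h2 with h4 | h4
    · exact absurd h4 ha
    · exact h4
  · intro j _ hj
    rw [if_neg (Ne.symm hj), map_zero, zero_mul]
  · intro h5
    exact absurd (Finset.mem_univ i) h5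

end Pool.Agent.H18.Sq
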