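import Pool.Agent.H18.Cub.CremA

/-!
# Moving `r + 1` general points to the coordinate points
-/

namespace Pool.Agent.H18.Sq

open MvPolynomial Finset Pool.Agent.H18.Fat

open Classical in
/-- The configuration `y` with the points `J l` replaced by the coordinate points. -/
noncomputable def cnf {r k : ℕ} (J : Fin (r + 1) ↪ Fin k) (y : Fin k → Fin (r + 1) → ℂ) :
    Fin k → Fin (r + 1) → ℂ := fun i =>
  if h : ∃ l, J l = i then Pi.single h.choose 1 else y i

theorem cnf_J {r k : ℕ} (J : Fin (r + 1) ↪ Fin k) (y : Fin k → Fin (r + 1) → ℂ) (l : Fin (r + 1)) :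
    cnf J y (J l) = Pi.single l 1 := by
  have h : ∃ l', J l' = J l := ⟨l, rfl⟩
  unfold cnf
  rw [dif_pos h]
  congr 1
  exact J.injective h.choose_spec

theorem cnf_ne {r k : ℕ} (J : Fin (r + 1) ↪ Fin k) (y : Fin k → Fin (r + 1) → ℂ) {i : Fin k}
    (hi : ∀ l, J l ≠ i) : cnf J y i = y i := by
  have h : ¬ ∃ l, J l = i := by
    rintro ⟨l, hl⟩
    exact hi l hl
  unfold cnf
  rw [dif_neg h]

/-- Invariance under linear changes of coordinates. -/
def GLinv {r k : ℕ} (P : (Fin k → Fin (r + 1) → ℂ) → Prop) : Prop :=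
  ∀ (A B : Matrix (Fin (r + 1)) (Fin (r + 1)) ℂ), A * B = 1 → ∀ p, P p →
    P fun i => A.mulVec (p i)

theorem exists_eval_ne {σ : Type*} {G : MvPolynomial σ ℂ} (hG : G ≠ 0) : ∃ a, eval a G ≠ 0 := by
  by_contra hcon
  push Not at hcon
  exact hG (MvPolynomial.funext fun x => by rw [hcon x, map_zero])

/-- The matrix of the points `J l`. -/
def matJ {r k : ℕ} (J : Fin (r + 1) ↪ Fin k) (p : Fin k → Fin (r + 1) → ℂ) :
    Matrix (Fin (r + 1)) (Fin (r + 1)) ℂ := Matrix.of fun i l => p (J l) i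

theorem matJ_single {r k : ℕ} (J : Fin (r + 1) ↪ Fin k) (p : Fin k → Fin (r + 1) → ℂ)
    (l : Fin (r + 1)) : (matJ J p).mulVec (Pi.single l 1) = p (J l) := by
  funext j
  rw [Matrix.mulVec_single_one]
  rfl

theorem conf_of_general {r k : ℕ} (J : Fin (r + 1) ↪ Fin k)
    {P : (Fin k → Fin (r + 1) → ℂ) → Prop} (hP : GLinv P) (h : ForGeneralPoints r k P) :
    ForGeneralPoints r k fun y => P (cnf J y) := by
  classical
  obtain ⟨G, hG, hGP⟩ := h.and (Pool.Agent.H18.Cub.general_det r k J)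
  obtain ⟨a₀, ha₀⟩ := exists_eval_ne hG
  set p₀ : Fin k → Fin (r + 1) → ℂ := fun i j => a₀ (i, j) with hp₀
  obtain ⟨-, hdet⟩ := hGP p₀ ha₀
  have hunit : IsUnit (matJ J p₀) := by
    rw [Matrix.isUnit_iff_isUnit_det]
    exact isUnit_iff_ne_zero.2 hdet
  obtain ⟨B, hB⟩ := isUnit_iff_exists_inv.1 hunit
  have hBA : B * matJ J p₀ = 1 := mul_eq_one_comm.1 hB
  let g : Fin k × Fin (r + 1) → MvPolynomial (Fin k × Fin (r + 1)) ℂ := fun x =>
    if ∃ l, J l = x.1 then C (p₀ x.1 x.2) else ∑ t, C (matJ J p₀ x.2 t) * X (x.1, t)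
  have hg : ∀ (y : Fin k → Fin (r + 1) → ℂ) (x : Fin k × Fin (r + 1)),
      eval (fun x => y x.1 x.2) (g x) = (matJ J p₀).mulVec (cnf J y x.1) x.2 := by
    intro y x
    simp only [g]
    split_ifs with hx
    · obtain ⟨l, hl⟩ := hx
      rw [← hl, cnf_J, matJ_single, eval_C]
    · push Not at hx
      rw [cnf_ne J y hx, map_sum]
      simp only [Matrix.mulVec, dotProduct, map_mul, eval_C, eval_X]
  have hG' : ∀ y : Fin k → Fin (r + 1) → ℂ, eval (fun x => y x.1 x.2) (bind₁ g G) =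
      eval (fun x : Fin k × Fin (r + 1) => (matJ J p₀).mulVec (cnf J y x.1) x.2) G := by
    intro y
    change eval₂Hom (RingHom.id ℂ) _ _ = _
    rw [eval₂Hom_bind₁]
    have h1 : (fun x => (eval₂Hom (RingHom.id ℂ) fun x : Fin k × Fin (r + 1) => y x.1 x.2) (g x)) =
        fun x : Fin k × Fin (r + 1) => (matJ J p₀).mulVec (cnf J y x.1) x.2 := by
      funext x
      exact hg y x
    rw [h1]
    rfl
  refine ⟨bind₁ g G, ?_, ?_⟩
  · intro h0
    have h1 := hG' fun i => B.mulVec (p₀ i)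
    rw [h0, map_zero] at h1
    apply ha₀
    rw [h1]
    congr 2
    funext x
    by_cases hx : ∃ l, J l = x.1
    · obtain ⟨l, hl⟩ := hx
      rw [← hl, cnf_J, matJ_single]
      simp [hp₀, hl]
    · push Not at hx
      rw [cnf_ne _ _ hx, Matrix.mulVec_mulVec, hB, Matrix.one_mulVec]
  · intro y hy
    rw [hG'] at hy
    have h1 := (hGP (fun i => (matJ J p₀).mulVec (cnf J y i)) hy).1
    have h2 := hP B _ hBA _ h1
    have h3 : (fun i => B.mulVec ((matJ J p₀).mulVec (cnf J y i))) = cnf J y := by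
      funext i
      rw [Matrix.mulVec_mulVec, hBA, Matrix.one_mulVec]
    rwa [h3] at h2

/-- Clearing a denominator. -/
theorem clear_denom {σ τ : Type*} (D : MvPolynomial σ ℂ) (g : τ → MvPolynomial σ ℂ)
    (Q : MvPolynomial τ ℂ) : ∃ (Q' : MvPolynomial σ ℂ) (N : ℕ), ∀ (p : σ → ℂ) (y : τ → ℂ),
      (∀ x, eval p D * y x = eval p (g x)) → eval p Q' = (eval p D) ^ N * eval y Q := by
  induction Q using MvPolynomial.induction_on with
  | C c => exact ⟨C c, 0, fun p y _ => by simp⟩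
  | add Q₁ Q₂ h₁ h₂ =>
    obtain ⟨Q₁', N₁, h₁⟩ := h₁
    obtain ⟨Q₂', N₂, h₂⟩ := h₂
    refine ⟨D ^ N₂ * Q₁' + D ^ N₁ * Q₂', N₁ + N₂, fun p y hpy => ?_⟩
    rw [map_add, map_mul, map_mul, map_pow, map_pow, h₁ p y hpy, h₂ p y hpy, map_add]
    ring
  | mul_X Q x h =>
    obtain ⟨Q', N, h⟩ := h
    refine ⟨Q' * g x, N + 1, fun p y hpy => ?_⟩
    rw [map_mul, h p y hpy, ← hpy x, map_mul, eval_X]
    ring

theorem general_of_conf {r k : ℕ} (J : Fin (r + 1) ↪ Fin k)
    {P : (Fin k → Fin (r + 1) → ℂ) → Prop} (hP : GLinv P)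
    (h : ForGeneralPoints r k fun y => P (cnf J y)) : ForGeneralPoints r k P := by
  classical
  obtain ⟨G, hG, hGP⟩ := h
  obtain ⟨y₀, hy₀⟩ := exists_eval_ne hG
  -- the generic matrix
  let M : Matrix (Fin (r + 1)) (Fin (r + 1)) (MvPolynomial (Fin k × Fin (r + 1)) ℂ) :=
    Matrix.of fun i l => MvPolynomial.X (J l, i)
  have hMp : ∀ p : Fin k → Fin (r + 1) → ℂ,
      (eval (fun x : Fin k × Fin (r + 1) => p x.1 x.2)).mapMatrix M = matJ J p := by
    intro p
    ext i l
    simp [M, matJ]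
  have hM : ∀ p : Fin k → Fin (r + 1) → ℂ, eval (fun x => p x.1 x.2) M.det = (matJ J p).det := by
    intro p
    rw [RingHom.map_det, hMp]
  have hadj : ∀ (p : Fin k → Fin (r + 1) → ℂ) (i j : Fin (r + 1)),
      eval (fun x => p x.1 x.2) (M.adjugate i j) = (matJ J p).adjugate i j := by
    intro p i j
    rw [← hMp p, ← RingHom.map_adjugate]
    rfl
  let g : Fin k × Fin (r + 1) → MvPolynomial (Fin k × Fin (r + 1)) ℂ := fun x =>
    if ∃ l, J l = x.1 then M.det * C (y₀ x) else ∑ t, M.adjugate x.2 t * X (x.1, t)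
  obtain ⟨Q, N, hQ⟩ := clear_denom M.det g G
  -- the values
  have hval : ∀ (p : Fin k → Fin (r + 1) → ℂ) (y : Fin k × Fin (r + 1) → ℂ),
      (∀ x, (∃ l, J l = x.1) → y x = y₀ x) →
      (∀ x : Fin k × Fin (r + 1), (¬ ∃ l, J l = x.1) →
        (matJ J p).det * y x = (matJ J p).adjugate.mulVec (p x.1) x.2) →
      eval (fun x => p x.1 x.2) Q = (matJ J p).det ^ N * eval y G := by
    intro p y h1 h2
    rw [hQ (fun x => p x.1 x.2) y, hM]
    intro x
    rw [hM]
    simp only [g]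
    split_ifs with hx
    · rw [map_mul, hM, eval_C, h1 x hx]
    · rw [h2 x hx, map_sum]
      simp only [Matrix.mulVec, dotProduct, map_mul, eval_X, hadj]
  refine ⟨Q * M.det, mul_ne_zero ?_ ?_, ?_⟩
  · -- `Q ≠ 0`
    intro h0
    set p₀ : Fin k → Fin (r + 1) → ℂ := cnf J fun i j => y₀ (i, j) with hp₀
    have hone : matJ J p₀ = 1 := by
      ext i l
      change p₀ (J l) i = _
      rw [hp₀, cnf_J, Matrix.one_apply, Pi.single_apply]
    have h1 := hval p₀ y₀ (fun _ _ => rfl) fun x hx => by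
      push Not at hx
      rw [hone, Matrix.det_one, one_mul, Matrix.adjugate_one, Matrix.one_mulVec, hp₀,
        cnf_ne _ _ hx]
    rw [h0, map_zero, hone, Matrix.det_one, one_pow, one_mul] at h1
    exact hy₀ h1.symm
  · intro h0
    have h1 := hM (cnf J fun i j => y₀ (i, j))
    rw [h0, map_zero] at h1
    have hone : matJ J (cnf J fun i j => y₀ (i, j)) = 1 := by
      ext i l
      change cnf J (fun i j => y₀ (i, j)) (J l) i = _
      rw [cnf_J, Matrix.one_apply, Pi.single_apply]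
    rw [hone, Matrix.det_one] at h1
    exact one_ne_zero h1.symm
  · intro p hp
    rw [map_mul, hM] at hp
    have hdet := right_ne_zero_of_mul hp
    have hQp := left_ne_zero_of_mul hp
    have hunit : IsUnit (matJ J p) := by
      rw [Matrix.isUnit_iff_isUnit_det]
      exact isUnit_iff_ne_zero.2 hdet
    obtain ⟨B, hB⟩ := isUnit_iff_exists_inv.1 hunit
    have hBA : B * matJ J p = 1 := mul_eq_one_comm.1 hB
    have hadjB : (matJ J p).adjugate = (matJ J p).det • B := by
      calc (matJ J p).adjugate = (matJ J p).adjugate * (matJ J p * B) := by rw [hB, mul_one]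
        _ = _ := by rw [← mul_assoc, Matrix.adjugate_mul, Matrix.smul_mul, one_mul]
    set y : Fin k × Fin (r + 1) → ℂ := fun x =>
      if ∃ l, J l = x.1 then y₀ x else B.mulVec (p x.1) x.2 with hy
    have h1 := hval p y (fun x hx => if_pos hx) fun x hx => by
      rw [hy]
      simp only
      rw [if_neg hx, hadjB, Matrix.smul_mulVec]
      rfl
    rw [h1] at hQp
    have h2 := hGP (fun i j => y (i, j)) (right_ne_zero_of_mul hQp)
    have h3 := hP (matJ J p) B hB _ h2
    have h4 : (fun i => (matJ J p).mulVec (cnf J (fun i j => y (i, j)) i)) = p := by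
      funext i
      by_cases hi : ∃ l, J l = i
      · obtain ⟨l, rfl⟩ := hi
        rw [cnf_J, matJ_single]
      · have h5 : (fun j => y (i, j)) = B.mulVec (p i) := by
          funext j
          rw [hy]
          simp only
          rw [if_neg hi]
        push Not at hi
        rw [cnf_ne _ _ hi, h5, Matrix.mulVec_mulVec, hB, Matrix.one_mulVec]
    rwa [h4] at h3

end Pool.Agent.H18.Sq
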