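import Pool.Agent.H18.Sq.Tor
import Pool.Agent.H18.Sq.Exact
import Pool.Agent.H18.Iso.Pair

/-!
# Common double curves and isolated singularities
-/

namespace Pool.Agent.H18.Sq

open MvPolynomial Finset Pool.Agent.H18.Fat Pool.Agent.H18.Iso

theorem X_sq_dvd {n : ℕ} {F : MvPolynomial (Fin n) ℂ} {l : Fin n}
    (h : ∀ β ∈ F.support, 2 ≤ β l) : X l ^ 2 ∣ F := by
  rw [F.as_sum]
  refine Finset.dvd_sum fun β hβ => ?_
  refine ⟨monomial (β - Finsupp.single l 2) (coeff β F), ?_⟩
  rw [X_pow_eq_monomial, monomial_mul, one_mul, add_tsub_cancel_of_le]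
  rw [Finsupp.single_le_iff]
  exact h β hβ

/-- A large pair gives a double line. -/
theorem dbl_pair {k d : ℕ} {m : Fin k → ℕ} (J : Fin 3 ↪ Fin k) (a b : Fin 3) (hab : a ≠ b)
    (h : d + 2 ≤ m (J a) + m (J b)) (y : Fin k → Fin 3 → ℂ) : Dbl d m (cnf J y) := by
  classical
  obtain ⟨c, hca, hcb⟩ : ∃ c : Fin 3, c ≠ a ∧ c ≠ b := by
    fin_cases a <;> fin_cases b <;> simp at hab ⊢ <;> decide
  let μ : Fin k → ℕ := fun i => if i = J a ∨ i = J b then 1 else 0
  refine ⟨X c, 1, μ, ?_, isHomogeneous_X ℂ c, fun i => ?_, ?_, fun F hF => ?_⟩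
  · exact X_prime.irreducible
  · by_cases hi : i = J a ∨ i = J b
    · simp only [μ]
      rw [if_pos hi]
      rcases hi with rfl | rfl
      · rw [cnf_J, vanishesToOrder_one, eval_X, Pi.single_eq_of_ne hca]
      · rw [cnf_J, vanishesToOrder_one, eval_X, Pi.single_eq_of_ne hcb]
    · simp only [μ]
      rw [if_neg hi]
      exact vanishesToOrder_zero _ _
  · have h1 : ({J a, J b} : Finset (Fin k)).card = 2 :=
      card_pair fun h => hab (J.injective h)
    have h2 : ∑ i ∈ ({J a, J b} : Finset (Fin k)), μ i ≤ ∑ i, μ i :=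
      sum_le_sum_of_subset (subset_univ _)
    have h3 : ∑ i ∈ ({J a, J b} : Finset (Fin k)), μ i = 2 := by
      rw [← h1, card_eq_sum_ones]
      refine sum_congr rfl fun i hi => ?_
      simp only [mem_insert, mem_singleton] at hi
      simp only [μ]
      rw [if_pos hi]
    omega
  · apply X_sq_dvd
    intro β hβ
    have h1 := hF.2 (J a)
    have h2 := hF.2 (J b)
    rw [cnf_J, vanishes_single_iff hF.1] at h1 h2
    have h3 := h1 β hβ
    have h4 := h2 β hβ
    have h5 : ∑ i : Fin 3, β i = d := degree_of_hom hF.1 hβ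
    have h6 : ∑ i : Fin 3, β i = β a + β b + β c := by
      rw [Fin.sum_univ_three]
      fin_cases a <;> fin_cases b <;> fin_cases c <;> simp at hab hca hcb ⊢ <;> omega
    omega

/-- A member with a double curve through a point is not isolated there. -/
theorem not_isolated_of_sq {F A G : MvPolynomial (Fin 3) ℂ} (hF : F = A ^ 2 * G)
    (hA : Irreducible A) {a : ℕ} (hAa : A.IsHomogeneous a) {q : Fin 3 → ℂ} (hq : q 0 ≠ 0)
    (hAq : eval q A = 0) : ¬ IsolatedAt F q := by
  rintro ⟨e, g, -, hgq, hg⟩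
  have ha := ne_unit_of_hom hA hAa
  -- the zeros of `A`
  have hz : ∀ x : Fin 3 → ℂ, eval x A = 0 → eval x g ≠ 0 → ∃ t : ℂ, x = t • q := by
    intro x hx hgx
    refine hg x (fun j => ?_) hgx
    rw [hF, pderiv_mul, pow_two, pderiv_mul]
    simp only [map_add, map_mul, hx]
    ring
  let L : Fin 3 → MvPolynomial (Fin 3) ℂ := fun j => C (q 0) * X j - C (q j) * X 0
  have hdvd : ∀ j, A ∣ L j := by
    intro j
    have h1 : g * L j ∈ vanishingIdeal ℂ (zeroLocus ℂ (Ideal.span {A})) := by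
      rw [mem_vanishingIdeal_iff]
      intro x hx
      have hAx : eval x A = 0 := (mem_zeroLocus_iff.1 hx) A (Ideal.subset_span rfl)
      have h2 : eval x (g * L j) = 0 := by
        rw [map_mul]
        by_cases h0 : eval x g = 0
        · rw [h0, zero_mul]
        · obtain ⟨t, rfl⟩ := hz x hAx h0
          have : eval (t • q) (L j) = 0 := by
            simp only [L, map_sub, map_mul, eval_C, eval_X, Pi.smul_apply, smul_eq_mul]
            ring
          rw [this, mul_zero]
      exact h2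
    rw [vanishingIdeal_zeroLocus_eq_radical] at h1
    obtain ⟨N, hN⟩ := h1
    rw [Ideal.mem_span_singleton] at hN
    have h2 := hA.prime.dvd_of_dvd_pow hN
    rcases hA.prime.dvd_or_dvd h2 with h3 | h3
    · exfalso
      obtain ⟨D, hD⟩ := h3
      apply hgq
      rw [hD, map_mul, hAq, zero_mul]
    · exact h3
  have hne : ∀ j : Fin 3, j ≠ 0 → L j ≠ 0 := by
    intro j hj h0
    have h1 := congrArg (eval (Pi.single j 1 : Fin 3 → ℂ)) h0
    simp only [L, map_sub, map_mul, eval_C, eval_X, map_zero, Pi.single_eq_same,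
      Pi.single_eq_of_ne (Ne.symm hj), mul_zero, sub_zero, mul_one] at h1
    exact hq h1
  have hdeg : ∀ j l : Fin 3, j ≠ 0 → l ≠ 0 → l ≠ j → degreeOf l A = 0 := by
    intro j l hj hl hlj
    obtain ⟨D, hD⟩ := hdvd j
    have hD0 : D ≠ 0 := by
      rintro rfl
      rw [mul_zero] at hD
      exact hne j hj hD
    have h1 := degreeOf_mul_eq (n := l) hA.ne_zero hD0
    rw [← hD] at h1
    have h2 : degreeOf l (L j) = 0 := by
      rw [← Nat.le_zero]
      have h3 : degreeOf l (L j) ≤ max (degreeOf l (C (q 0) * X j)) (degreeOf l (C (q j) * X 0)) :=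
        degreeOf_sub_le _ _ _
      refine h3.trans (max_le ?_ ?_)
      · refine (degreeOf_C_mul_le _ _ _).trans ?_
        rw [degreeOf_X_of_ne hlj]
      · refine (degreeOf_C_mul_le _ _ _).trans ?_
        rw [degreeOf_X_of_ne hl]
    omega
  have h1 := hdeg 1 2 (by decide) (by decide) (by decide)
  have h2 := hdeg 2 1 (by decide) (by decide) (by decide)
  have h3 : X 0 ∣ A := by
    rw [X_dvd_iff']
    intro β hβ h0
    have h4 := degree_of_hom hAa hβ
    rw [Fin.sum_univ_three, h0] at h4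
    have h5 := monomial_le_degreeOf 1 hβ
    have h6 := monomial_le_degreeOf 2 hβ
    omega
  obtain ⟨D, hD⟩ := h3.trans (hdvd 1)
  have h4 := congrArg (eval (Pi.single 1 1 : Fin 3 → ℂ)) hD
  simp [L] at h4
  exact hq h4

/-- A common double curve through the points excludes members with isolated singularities. -/
theorem not_dbl_of_isolated {k d : ℕ} {m : Fin k → ℕ}
    (hiso : ForGeneralPoints 2 k fun p => ∃ F ∈ fatForms 2 d p m, ∀ i, IsolatedAt F (p i)) :
    ¬ ForGeneralPoints 2 k (Dbl d m) := by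
  intro hD
  obtain ⟨p, ⟨⟨F, hF, hFi⟩, hDp⟩, hp0⟩ := Pool.Agent.H18.Cub.exists_of_general
    ((hiso.and hD).and (Pool.Agent.H18.Pr.general_ne_zero 2 k))
  obtain ⟨A, a, μ, hA, hAa, hAμ, hnum, hdiv⟩ := hDp
  have ha := ne_unit_of_hom hA hAa
  obtain ⟨i, hi⟩ : ∃ i, μ i ≠ 0 := by
    by_contra hcon
    push Not at hcon
    rw [sum_eq_zero fun i _ => hcon i] at hnum
    omega
  obtain ⟨G, hG⟩ := hdiv F hF
  refine not_isolated_of_sq hG hA hAa (hp0 i) ?_ (hFi i)
  rw [← vanishesToOrder_one]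
  intro β hβ
  exact hAμ i β (by omega)

end Pool.Agent.H18.Sq
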