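import Pool.Agent.H18.Cub.CremA

/-!
# The inversion `x ↦ 1/x` of forms
-/

namespace Pool.Agent.H18.Sq

open MvPolynomial Finset Pool.Agent.H18.Fat Pool.Agent.H18.Ex Pool.Agent.H18.Cub

variable {n : ℕ}

/-- `F ↦ x^u F(1/x)`, on monomials `x^β ↦ x^(u - β)` (truncated subtraction). -/
noncomputable def rev (u : Fin n →₀ ℕ) : MvPolynomial (Fin n) ℂ →ₗ[ℂ] MvPolynomial (Fin n) ℂ :=
  (basisMonomials (Fin n) ℂ).constr ℂ fun β => monomial (u - β) 1

theorem rev_monomial (u β : Fin n →₀ ℕ) (c : ℂ) :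
    rev u (monomial β c) = monomial (u - β) c := by
  have h1 : (monomial β c : MvPolynomial (Fin n) ℂ) = c • basisMonomials (Fin n) ℂ β := by
    rw [coe_basisMonomials, smul_monomial, smul_eq_mul, mul_one]
  rw [h1, map_smul]
  unfold rev
  rw [Module.Basis.constr_basis, smul_monomial, smul_eq_mul, mul_one]

theorem rev_eq_sum (u : Fin n →₀ ℕ) (F : MvPolynomial (Fin n) ℂ) :
    rev u F = ∑ β ∈ F.support, monomial (u - β) (coeff β F) := by
  conv_lhs => rw [F.as_sum]
  rw [map_sum]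
  exact sum_congr rfl fun β _ => rev_monomial u β _

/-- All exponents of `F` are at most `u`. -/
def Le (u : Fin n →₀ ℕ) (F : MvPolynomial (Fin n) ℂ) : Prop := ∀ β ∈ F.support, β ≤ u

theorem coeff_rev {u : Fin n →₀ ℕ} {F : MvPolynomial (Fin n) ℂ} (h : Le u F) {γ : Fin n →₀ ℕ}
    (hγ : γ ≤ u) : coeff γ (rev u F) = coeff (u - γ) F := by
  classical
  rw [rev_eq_sum, coeff_sum]
  simp only [coeff_monomial]
  rw [sum_eq_single (u - γ)]
  · rw [tsub_tsub_cancel_of_le hγ, if_pos rfl]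
  · intro β hβ hne
    rw [if_neg]
    intro h1
    apply hne
    rw [← h1, tsub_tsub_cancel_of_le (h β hβ)]
  · intro h1
    rw [notMem_support_iff.1 h1, ite_self]

theorem le_rev (u : Fin n →₀ ℕ) (F : MvPolynomial (Fin n) ℂ) : Le u (rev u F) := by
  classical
  intro γ hγ
  rw [mem_support_iff, rev_eq_sum, coeff_sum] at hγ
  obtain ⟨β, -, hβ⟩ := exists_ne_zero_of_sum_ne_zero hγ
  rw [coeff_monomial] at hβ
  have h1 : u - β = γ := by
    by_contra hne
    exact hβ (if_neg hne)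
  rw [← h1]
  exact tsub_le_self

theorem rev_rev {u : Fin n →₀ ℕ} {F : MvPolynomial (Fin n) ℂ} (h : Le u F) :
    rev u (rev u F) = F := by
  ext γ
  by_cases hγ : γ ≤ u
  · rw [coeff_rev (le_rev u F) hγ, coeff_rev h tsub_le_self, tsub_tsub_cancel_of_le hγ]
  · rw [notMem_support_iff.1 fun h1 => hγ (le_rev _ _ _ h1),
      notMem_support_iff.1 fun h1 => hγ (h _ h1)]

theorem rev_mul {u v : Fin n →₀ ℕ} {F G : MvPolynomial (Fin n) ℂ} (hF : Le u F) (hG : Le v G) :
    rev (u + v) (F * G) = rev u F * rev v G := by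
  rw [rev_eq_sum u F, rev_eq_sum v G, sum_mul_sum]
  conv_lhs => rw [F.as_sum, G.as_sum, sum_mul_sum]
  rw [map_sum]
  refine sum_congr rfl fun β hβ => ?_
  rw [map_sum]
  refine sum_congr rfl fun γ hγ => ?_
  rw [monomial_mul, rev_monomial, monomial_mul]
  congr 1
  congr 1
  ext i
  have h1 := hF β hβ i
  have h2 := hG γ hγ i
  simp only [Finsupp.tsub_apply, Finsupp.add_apply]
  omega

theorem rev_eq_zero {u : Fin n →₀ ℕ} {F : MvPolynomial (Fin n) ℂ} (h : Le u F)
    (h0 : rev u F = 0) : F = 0 := by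
  rw [← rev_rev h, h0, map_zero]

/-- The vector of the degrees in the variables. -/
noncomputable def dg (F : MvPolynomial (Fin n) ℂ) : Fin n →₀ ℕ :=
  Finsupp.equivFunOnFinite.symm fun l => degreeOf l F

theorem dg_apply (F : MvPolynomial (Fin n) ℂ) (l : Fin n) : dg F l = degreeOf l F := rfl

theorem le_dg (F : MvPolynomial (Fin n) ℂ) : Le (dg F) F := fun _ hβ l => monomial_le_degreeOf l hβ

theorem dg_le {u : Fin n →₀ ℕ} {F : MvPolynomial (Fin n) ℂ} (h : Le u F) : dg F ≤ u := by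
  intro l
  rw [dg_apply]
  rw [degreeOf_eq_sup]
  exact Finset.sup_le fun β hβ => h β hβ l

theorem dg_mul {F G : MvPolynomial (Fin n) ℂ} (hF : F ≠ 0) (hG : G ≠ 0) :
    dg (F * G) = dg F + dg G := by
  ext l
  rw [Finsupp.add_apply, dg_apply, dg_apply, dg_apply, degreeOf_mul_eq hF hG]

theorem exists_deg {F : MvPolynomial (Fin n) ℂ} (hF : F ≠ 0) (l : Fin n) :
    ∃ β ∈ F.support, β l = dg F l := by
  rw [dg_apply, degreeOf_eq_sup]
  have h := F.support.exists_mem_eq_sup (support_nonempty.2 hF) fun β => β l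
  obtain ⟨β, hβ, h⟩ := h
  exact ⟨β, hβ, h.symm⟩

theorem mem_support_rev {u : Fin n →₀ ℕ} {F : MvPolynomial (Fin n) ℂ} (h : Le u F)
    {β : Fin n →₀ ℕ} : β ∈ (rev u F).support ↔ β ≤ u ∧ u - β ∈ F.support := by
  constructor
  · intro hβ
    have h1 := le_rev u F β hβ
    refine ⟨h1, ?_⟩
    rw [mem_support_iff] at hβ ⊢
    rwa [coeff_rev h h1] at hβ
  · rintro ⟨h1, h2⟩
    rw [mem_support_iff] at h2 ⊢
    rwa [coeff_rev h h1]

/-- `x_l` divides `F` iff all exponents at `l` are positive. -/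
theorem X_dvd_iff' {F : MvPolynomial (Fin n) ℂ} {l : Fin n} :
    X l ∣ F ↔ ∀ β ∈ F.support, β l ≠ 0 := by
  rw [X_dvd_iff_modMonomial_eq_zero]
  constructor
  · intro h β hβ h0
    have h2 : ¬ Finsupp.single l 1 ≤ β := by
      intro h2
      have h3 := h2 l
      rw [Finsupp.single_eq_same, h0] at h3
      exact absurd h3 (by norm_num)
    have h1 := coeff_modMonomial_of_not_le F h2
    rw [h, coeff_zero] at h1
    exact (mem_support_iff.1 hβ) h1.symm
  · intro h
    ext β
    rw [coeff_zero]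
    by_cases h1 : Finsupp.single l 1 ≤ β
    · exact coeff_modMonomial_of_le F h1
    · rw [coeff_modMonomial_of_not_le F h1]
      rw [Finsupp.single_le_iff] at h1
      by_contra h2
      exact h β (mem_support_iff.2 h2) (by omega)

theorem degree_of_hom {d : ℕ} {F : MvPolynomial (Fin n) ℂ} (hF : F.IsHomogeneous d)
    {β : Fin n →₀ ℕ} (hβ : β ∈ F.support) : ∑ i, β i = d := by
  by_contra h
  rw [mem_support_iff] at hβ
  apply hβ
  apply hF.coeff_eq_zero
  rw [Finsupp.degree_eq_sum]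
  exact h

theorem hom_of_degree {d : ℕ} {F : MvPolynomial (Fin n) ℂ}
    (hF : ∀ β ∈ F.support, ∑ i, β i = d) : F.IsHomogeneous d := by
  intro β hβ
  rw [← hF β (mem_support_iff.2 hβ)]
  simp [Finsupp.weight_apply, Finsupp.sum_fintype]

theorem rev_hom {u : Fin n →₀ ℕ} {F : MvPolynomial (Fin n) ℂ} {d e : ℕ}
    (hF : F.IsHomogeneous d) (h : Le u F) (he : ∑ i, u i = d + e) :
    (rev u F).IsHomogeneous e := by
  apply hom_of_degree
  intro β hβ
  rw [mem_support_rev h] at hβ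
  have h1 := degree_of_hom hF hβ.2
  have h2 : ∑ i, (u - β) i + ∑ i, β i = ∑ i, u i := by
    rw [← sum_add_distrib]
    refine sum_congr rfl fun i _ => ?_
    rw [Finsupp.tsub_apply]
    exact Nat.sub_add_cancel (hβ.1 i)
  omega

/-- Vanishing at a coordinate point. -/
theorem vanishes_single_iff {d m : ℕ} {F : MvPolynomial (Fin n) ℂ} (hF : F.IsHomogeneous d)
    (l : Fin n) : VanishesToOrder F (Pi.single l 1) m ↔ ∀ β ∈ F.support, β l + m ≤ d := by
  rw [← exists_toPoly hF, vanishes_coord_iff, exists_toPoly hF]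
  constructor
  · intro h β hβ
    have hβd : β ∈ mons n d := by
      rw [mem_mons, Finsupp.degree_eq_sum]
      exact degree_of_hom hF hβ
    exact h ⟨β, hβd⟩ (mem_support_iff.1 hβ)
  · intro h α hα
    exact h α.1 (mem_support_iff.2 hα)

theorem coeff_formOf {d : ℕ} {w : Fin n → ℕ} (f : (Fin n → ℕ) → ℂ) (β : Fin n →₀ ℕ)
    (hβ : (⇑β : Fin n → ℕ) ∈ Ex.Rg d w) : coeff β (formOf d w f) = f ⇑β := by
  classical
  have hβd : β ∈ mons n d := by
    rw [mem_mons, Finsupp.degree_eq_sum]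
    exact (Ex.mem_Rg.1 hβ).2
  unfold formOf
  rw [coeff_toPoly _ ⟨β, hβd⟩]
  exact if_pos hβ

/-- The order of vanishing at points of the torus. -/
theorem rev_vanishes {u : Fin n →₀ ℕ} {F : MvPolynomial (Fin n) ℂ} {d e m : ℕ}
    (hF : F.IsHomogeneous d) (h : Le u F) (he : ∑ i, u i = d + e) {q : Fin n → ℂ}
    (hq : ∀ i, q i ≠ 0) (hv : VanishesToOrder F (fun i => (q i)⁻¹) m) :
    VanishesToOrder (rev u F) q m := by
  have h1 : Sat (Ex.Rg d ⇑u) (cf F) (Kind.free m) fun i => (q i)⁻¹ := by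
    refine sat_of_vanishes (fun β hβ => ?_) hv
    rw [Ex.mem_Rg]
    exact ⟨fun i => h β hβ i, degree_of_hom hF hβ⟩
  have h2 := sat_reflect d ⇑u (by omega) (cf F) m _ (fun i => inv_ne_zero (hq i)) h1
  have h3 : ∑ i, u i - d = e := by omega
  rw [h3] at h2
  simp only [inv_inv] at h2
  have h4 := vanishes_formOf h2
  have h5 : formOf e ⇑u (fun a => cf F fun i => u i - a i) = rev u F := by
    ext β
    by_cases hβ : (⇑β : Fin n → ℕ) ∈ Ex.Rg e ⇑u
    · rw [coeff_formOf _ _ hβ, coeff_rev h (fun i => (Ex.mem_Rg.1 hβ).1 i)]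
      unfold cf
      congr 1
      ext i
      rfl
    · have h6 : coeff β (rev u F) = 0 := by
        rw [← notMem_support_iff]
        intro h7
        apply hβ
        rw [Ex.mem_Rg]
        exact ⟨fun i => le_rev u F β h7 i, degree_of_hom (rev_hom hF h he) h7⟩
      rw [h6]
      by_contra h7
      have h8 : (formOf e ⇑u (fun a => cf F fun i => u i - a i)).IsHomogeneous e :=
        toPoly_isHomogeneous _
      have h9 := degree_of_hom h8 (mem_support_iff.2 h7)
      have hβd : β ∈ mons n e := by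
        rw [mem_mons, Finsupp.degree_eq_sum]
        exact h9
      apply h7
      unfold formOf
      rw [coeff_toPoly _ ⟨β, hβd⟩]
      exact if_neg hβ
  rw [← h5]
  exact h4

end Pool.Agent.H18.Sq
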