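import Pool.Agent.H18.Sq.Chain
import Pool.Agent.H18.Ta.Asm

/-!
# Standard plane systems with isolated singularities
-/

namespace Pool.Agent.H18.Sq

open MvPolynomial Finset Pool.Agent.H18.Fat Pool.Agent.H18.Iso Pool.Agent.H18.Pr Pool.Agent.H18.Ub
  Pool.Agent.H18.Cub

theorem generalDim_le {r d k : ℕ} (m : Fin k → ℕ) (p : Fin k → Fin (r + 1) → ℂ) :
    generalDim r d m ≤ Module.finrank ℂ (fatForms r d p m) := Nat.sInf_le ⟨p, rfl⟩

/-- Effective systems: `m_i ≤ d` and the sum of three multiplicities is at most `2 d`. -/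
theorem bounds_of_ne {k d : ℕ} {m : Fin k → ℕ} (hne : generalDim 2 d m ≠ 0) (J : Fin 3 ↪ Fin k) :
    (∀ l, m (J l) ≤ d) ∧ ∑ l, m (J l) ≤ 2 * d := by
  have h1 := generalDim_le m (cnf (r := 2) J fun _ _ => 0) (d := d)
  have h2 : fatForms 2 d (cnf (r := 2) J fun _ _ => 0) m ≠ ⊥ := by
    intro h0
    rw [h0, finrank_bot] at h1
    omega
  obtain ⟨F, hF, hF0⟩ := Submodule.exists_mem_ne_zero_of_ne_bot h2
  obtain ⟨β, hβ⟩ := support_nonempty.2 hF0
  have h3 : ∀ l : Fin 3, β l + m (J l) ≤ d := by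
    intro l
    have h4 := hF.2 (J l)
    rw [cnf_J, vanishes_single_iff hF.1] at h4
    exact h4 β hβ
  have h5 : ∑ i : Fin 3, β i = d := degree_of_hom hF.1 hβ
  rw [Fin.sum_univ_three] at h5 ⊢
  have a0 := h3 0
  have a1 := h3 1
  have a2 := h3 2
  refine ⟨fun l => ?_, by omega⟩
  have := h3 l
  omega

/-- Reduction to the standard form. -/
theorem exists_standard {k : ℕ} (hk : 3 ≤ k) : ∀ (d : ℕ) (m : Fin k → ℕ),
    generalDim 2 d m ≠ 0 → ∃ (d' : ℕ) (m' : Fin k → ℕ), Cremona 2 d m d' m' ∧ d' ≤ d ∧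
      (∀ i, m' i ≤ m i) ∧ ∀ S : Finset (Fin k), S.card ≤ 3 → ∑ i ∈ S, m' i ≤ d' := by
  classical
  intro d
  induction d using Nat.strong_induction_on with
  | _ d IH =>
  intro m hne
  by_cases hS : ∀ S : Finset (Fin k), S.card ≤ 3 → ∑ i ∈ S, m i ≤ d
  · exact ⟨d, m, Cremona.refl d m, le_rfl, fun i => le_rfl, hS⟩
  push Not at hS
  obtain ⟨S, hS3, hSd⟩ := hS
  obtain ⟨T, hST, hT⟩ := Finset.exists_superset_card_eq hS3 (by rwa [Fintype.card_fin])
  let J : Fin 3 ↪ Fin k := (T.orderEmbOfFin hT).toEmbedding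
  have hJT : univ.map J = T := by
    ext i
    rw [mem_map]
    constructor
    · rintro ⟨l, -, rfl⟩
      exact T.orderEmbOfFin_mem hT l
    · intro hi
      have h1 : i ∈ Set.range (T.orderEmbOfFin hT) := by
        rw [T.range_orderEmbOfFin hT]
        exact hi
      obtain ⟨l, hl⟩ := h1
      exact ⟨l, mem_univ _, hl⟩
  have hsum : ∑ l, m (J l) = ∑ i ∈ T, m i := by
    rw [← hJT, sum_map]
  have hgt : d < ∑ l, m (J l) := by
    rw [hsum]
    exact lt_of_lt_of_le hSd (sum_le_sum_of_subset hST)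
  obtain ⟨hJ, hle⟩ := bounds_of_ne hne J
  obtain ⟨d₁, hd₁⟩ := Nat.exists_eq_add_of_le hle
  let m₁ : Fin k → ℕ := fun i => if ∃ l, J l = i then d₁ + m i - d else m i
  have hm : ∀ l, m₁ (J l) = d₁ + m (J l) - d := fun l => if_pos ⟨l, rfl⟩
  have hm' : ∀ i, (∀ l, J l ≠ i) → m₁ i = m i := fun i hi => if_neg (by
    rintro ⟨l, hl⟩
    exact hi l hl)
  have hstep := generalDim_step (Cremona.step J hJ hd₁.symm hm hm' (Cremona.refl d₁ m₁))
  obtain ⟨d', m', hcr, hdd, hle', hstd⟩ := IH d₁ (by omega) m₁ (by rwa [hstep])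
  refine ⟨d', m', Cremona.step J hJ hd₁.symm hm hm' hcr, by omega,
    fun i => (hle' i).trans ?_, hstd⟩
  simp only [m₁]
  split_ifs
  · omega
  · exact le_rfl

/-- Systems with a member with isolated singularities are effective. -/
theorem ne_zero_of_isolated {k d : ℕ} (hk : 1 ≤ k) {m : Fin k → ℕ}
    (hiso : ForGeneralPoints 2 k fun p => ∃ F ∈ fatForms 2 d p m, ∀ i, IsolatedAt F (p i)) :
    generalDim 2 d m ≠ 0 := by
  intro h0
  obtain ⟨p, ⟨⟨F, hF, hFi⟩, hp⟩, hp0⟩ := exists_of_general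
    ((hiso.and (generalDim_spec 2 d m)).and (general_ne_zero 2 k))
  rw [h0, Submodule.finrank_eq_zero] at hp
  rw [hp, Submodule.mem_bot] at hF
  subst hF
  set i : Fin k := ⟨0, hk⟩
  obtain ⟨e, g, -, hgq, hg⟩ := hFi i
  let L : MvPolynomial (Fin 3) ℂ := C (p i 0) * X 1 - C (p i 1) * X 0
  have hL : L ≠ 0 := by
    intro h1
    have h2 := congrArg (eval (Pi.single 1 1 : Fin 3 → ℂ)) h1
    simp [L] at h2
    exact hp0 i h2
  have hg0 : g ≠ 0 := by
    rintro rfl
    exact hgq (map_zero _)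
  obtain ⟨x, hx⟩ := exists_eval_ne (mul_ne_zero hg0 hL)
  rw [map_mul] at hx
  obtain ⟨t, rfl⟩ := hg x (fun j => by rw [map_zero, map_zero]) (left_ne_zero_of_mul hx)
  apply right_ne_zero_of_mul hx
  simp only [L, map_sub, map_mul, eval_C, eval_X, Pi.smul_apply, smul_eq_mul]
  ring

/-- The conclusion for `(d; m)` from the one for `(d'; m')`. -/
theorem maximal_of_cremona {k d d' : ℕ} {m m' : Fin k → ℕ} (hcr : Cremona 2 d m d' m')
    (hiso : ForGeneralPoints 2 k fun p => ∃ F ∈ fatForms 2 d p m, ∀ i, IsolatedAt F (p i))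
    (h : ForGeneralPoints 2 k fun p => ImposesMaximalConditions 2 d' p m') :
    ForGeneralPoints 2 k fun p => ImposesMaximalConditions 2 d p m := by
  have hv := virt_eq_of_isolated hcr hiso
  unfold virt at hv
  refine (cremona_final (by norm_num) hcr h).mono fun p hp => ?_
  unfold ImposesMaximalConditions
  rw [hp.1, hv]

end Pool.Agent.H18.Sq
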