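import Pool.Agent.H18.Sq.Rev
import Pool.Agent.H18.Sq.Move

/-!
# Double curves and quadratic transformations
-/

namespace Pool.Agent.H18.Sq

open MvPolynomial Finset Pool.Agent.H18.Fat

theorem sum_split {r k : ℕ} (J : Fin (r + 1) ↪ Fin k) (f : Fin k → ℕ) :
    ∑ i, f i = ∑ l, f (J l) + ∑ i ∈ univ.filter (fun i => ∀ l, J l ≠ i), f i := by
  classical
  rw [← sum_filter_add_sum_filter_not univ (fun i => ∀ l, J l ≠ i), add_comm]
  congr 1
  have h : (univ.filter fun i => ¬ ∀ l, J l ≠ i) = univ.map J := by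
    ext i
    simp
  rw [h, sum_map]

/-- All members of the system have a common double curve `A = 0`, where `A` is irreducible, of
degree `a` with multiplicities (at least) `μ i` at the points, `3 a - ∑ μ i ≤ 1`. -/
def Dbl {k : ℕ} (d : ℕ) (m : Fin k → ℕ) (p : Fin k → Fin 3 → ℂ) : Prop :=
  ∃ (A : MvPolynomial (Fin 3) ℂ) (a : ℕ) (μ : Fin k → ℕ), Irreducible A ∧ A.IsHomogeneous a ∧
    (∀ i, VanishesToOrder A (p i) (μ i)) ∧ 3 * a ≤ 1 + ∑ i, μ i ∧
    ∀ F ∈ fatForms 2 d p m, A ^ 2 ∣ F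

/-- The substitution as an equivalence. -/
noncomputable def linEquiv {n : ℕ} {A B : Matrix (Fin n) (Fin n) ℂ} (hAB : A * B = 1) :
    MvPolynomial (Fin n) ℂ ≃ₐ[ℂ] MvPolynomial (Fin n) ℂ :=
  AlgEquiv.ofAlgHom (linSubst A) (linSubst B)
    (by
      refine AlgHom.ext fun F => ?_
      rw [AlgHom.comp_apply, linSubst_comp, mul_eq_one_comm.1 hAB, linSubst_one]
      rfl)
    (by
      refine AlgHom.ext fun F => ?_
      rw [AlgHom.comp_apply, linSubst_comp, hAB, linSubst_one]
      rfl)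

theorem glinv_dbl {k : ℕ} (d : ℕ) (m : Fin k → ℕ) : GLinv (r := 2) (k := k) (Dbl d m) := by
  intro M B hMB p h
  have hBM : B * M = 1 := mul_eq_one_comm.1 hMB
  obtain ⟨A, a, μ, hA, hAa, hAμ, hnum, hdiv⟩ := h
  have hBp : ∀ i, B.mulVec (M.mulVec (p i)) = p i := fun i => by
    rw [Matrix.mulVec_mulVec, hBM, Matrix.one_mulVec]
  refine ⟨linSubst B A, a, μ, ?_, linSubst_isHomogeneous B hAa, fun i => ?_, hnum, fun F hF => ?_⟩
  · exact (MulEquiv.irreducible_iff (linEquiv hBM)).2 hA
  · apply vanishes_linSubst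
    rw [hBp]
    exact hAμ i
  · have h1 : linSubst M F ∈ fatForms 2 d p m :=
      ⟨linSubst_isHomogeneous M hF.1, fun i => vanishes_linSubst (hF.2 i)⟩
    have h2 := map_dvd (linSubst B) (hdiv _ h1)
    rw [linSubst_comp, hMB, linSubst_one, map_pow] at h2
    exact h2

theorem ne_unit_of_hom {n a : ℕ} {A : MvPolynomial (Fin n) ℂ} (hA : Irreducible A)
    (hAa : A.IsHomogeneous a) : 1 ≤ a := by
  by_contra hcon
  have h0 : a = 0 := by omega
  subst h0
  have h1 : A = C (coeff 0 A) := by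
    rw [← totalDegree_eq_zero_iff_eq_C]
    exact Nat.le_zero.1 hAa.totalDegree_le
  apply hA.not_isUnit
  rw [h1]
  refine (isUnit_iff_ne_zero.2 fun h0 => ?_).map C
  apply hA.ne_zero
  rw [h1, h0, map_zero]

theorem eq_monomial_of_isUnit {n : ℕ} {A : MvPolynomial (Fin n) ℂ} (hA : IsUnit A) :
    ∃ c, A = monomial 0 c := by
  obtain ⟨c, -, hc⟩ := MvPolynomial.isUnit_iff_eq_C_of_isReduced.1 hA
  exact ⟨c, hc⟩

/-- Inversion preserves irreducible forms which are not divisible by a variable. -/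
theorem irreducible_rev {n : ℕ} {A : MvPolynomial (Fin n) ℂ} (hA : Irreducible A)
    (hX : ∀ l, ¬ X l ∣ A) : Irreducible (rev (dg A) A) ∧ dg (rev (dg A) A) = dg A := by
  classical
  set u := dg A with hu
  have hLe : Le u A := le_dg A
  have hne : rev u A ≠ 0 := fun h0 => hA.ne_zero (rev_eq_zero hLe h0)
  have hdg : dg (rev u A) = u := by
    apply le_antisymm (dg_le (le_rev u A))
    intro l
    have h1 := hX l
    rw [X_dvd_iff'] at h1
    push Not at h1
    obtain ⟨β, hβ, hβl⟩ := h1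
    have h2 : u - β ∈ (rev u A).support := by
      rw [mem_support_rev hLe]
      refine ⟨tsub_le_self, ?_⟩
      rw [tsub_tsub_cancel_of_le (hLe β hβ)]
      exact hβ
    have h3 := le_dg (rev u A) _ h2 l
    rw [Finsupp.tsub_apply, hβl, Nat.sub_zero] at h3
    exact h3
  -- a factor with a unit as its inversion
  have key : ∀ B D : MvPolynomial (Fin n) ℂ, rev u A = B * D → IsUnit (rev (dg B) B) →
      IsUnit B := by
    intro B D hBD hunit
    obtain ⟨c, hc⟩ := eq_monomial_of_isUnit hunit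
    have h1 : B = monomial (dg B) c := by
      have h2 := rev_rev (le_dg B)
      rw [hc, rev_monomial, tsub_zero] at h2
      exact h2.symm
    have hB0 : B ≠ 0 := by
      rintro rfl
      rw [zero_mul] at hBD
      exact hne hBD
    have hc0 : c ≠ 0 := by
      rintro rfl
      rw [monomial_zero] at h1
      exact hB0 h1
    have h3 : dg B = 0 := by
      by_contra hne0
      obtain ⟨l, hl⟩ : ∃ l, dg B l ≠ 0 := by
        by_contra hcon
        push Not at hcon
        exact hne0 (Finsupp.ext hcon)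
      have h4 : X l ∣ B := by
        rw [X_dvd_iff']
        intro β hβ
        rw [h1, support_monomial, if_neg hc0, mem_singleton] at hβ
        rw [hβ]
        exact hl
      have h5 : X l ∣ rev u A := by
        rw [hBD]
        exact h4.mul_right D
      rw [X_dvd_iff'] at h5
      obtain ⟨β, hβ, hβl⟩ := exists_deg hA.ne_zero l
      have h6 : u - β ∈ (rev u A).support := by
        rw [mem_support_rev hLe]
        refine ⟨tsub_le_self, ?_⟩
        rw [tsub_tsub_cancel_of_le (hLe β hβ)]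
        exact hβ
      apply h5 _ h6
      rw [Finsupp.tsub_apply, hβl, Nat.sub_self]
    rw [h3] at h1
    rw [h1]
    exact (isUnit_iff_ne_zero.2 hc0).map C
  refine ⟨?_, hdg⟩
  rw [irreducible_iff]
  constructor
  · intro hunit
    obtain ⟨c, hc⟩ := eq_monomial_of_isUnit hunit
    have h1 : A = monomial u c := by
      have h2 := rev_rev hLe
      rw [hc, rev_monomial, tsub_zero] at h2
      exact h2.symm
    have hc0 : c ≠ 0 := by
      rintro rfl
      rw [monomial_zero] at h1
      exact hA.ne_zero h1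
    by_cases hu0 : u = 0
    · apply hA.not_isUnit
      rw [h1, hu0]
      exact (isUnit_iff_ne_zero.2 hc0).map C
    · obtain ⟨l, hl⟩ : ∃ l, u l ≠ 0 := by
        by_contra hcon
        push Not at hcon
        exact hu0 (Finsupp.ext hcon)
      apply hX l
      rw [X_dvd_iff']
      intro β hβ
      rw [h1, support_monomial, if_neg hc0, mem_singleton] at hβ
      rw [hβ]
      exact hl
  · intro B D hBD
    have hB0 : B ≠ 0 := by
      rintro rfl
      rw [zero_mul] at hBD
      exact hne hBD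
    have hD0 : D ≠ 0 := by
      rintro rfl
      rw [mul_zero] at hBD
      exact hne hBD
    have h1 : A = rev (dg B) B * rev (dg D) D := by
      rw [← rev_mul (le_dg B) (le_dg D), ← dg_mul hB0 hD0, ← hBD, hdg, rev_rev hLe]
    rcases hA.isUnit_or_isUnit h1 with h2 | h2
    · exact Or.inl (key B D hBD h2)
    · exact Or.inr (key D B (hBD.trans (mul_comm _ _)) h2)

/-- The members of the transformed system. -/
theorem rev_mem {k d d₁ : ℕ} {m m₁ : Fin k → ℕ} (J : Fin 3 ↪ Fin k) (hJ : ∀ l, m (J l) ≤ d)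
    (hd : ∑ l, m (J l) + d₁ = 2 * d) (hm : ∀ l, m₁ (J l) = d₁ + m (J l) - d)
    (hm' : ∀ i, (∀ l, J l ≠ i) → m₁ i = m i) {y : Fin k → Fin 3 → ℂ} (hy : ∀ i j, y i j ≠ 0)
    {w : Fin 3 →₀ ℕ} (hw : ∀ l, w l = d - m (J l)) {F : MvPolynomial (Fin 3) ℂ}
    (hF : F ∈ fatForms 2 d (cnf J y) m) :
    Le w F ∧ rev w F ∈ fatForms 2 d₁ (cnf J fun i j => (y i j)⁻¹) m₁ := by
  have hsum : ∑ l, w l = d + d₁ := by
    rw [Fin.sum_univ_three] at hd ⊢
    rw [hw, hw, hw]
    have h0 := hJ 0
    have h1 := hJ 1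
    have h2 := hJ 2
    omega
  have hLe : Le w F := by
    intro β hβ l
    have h1 := hF.2 (J l)
    rw [cnf_J, vanishes_single_iff hF.1] at h1
    have h2 := h1 β hβ
    rw [hw]
    omega
  have hhom := rev_hom hF.1 hLe hsum
  refine ⟨hLe, hhom, fun i => ?_⟩
  by_cases hi : ∃ l, J l = i
  · obtain ⟨l, rfl⟩ := hi
    rw [cnf_J, vanishes_single_iff hhom]
    intro β hβ
    have h1 := le_rev w F β hβ l
    have h2 : β l ≤ d₁ := by
      rw [← degree_of_hom hhom hβ]
      exact single_le_sum (f := fun i => β i) (fun _ _ => Nat.zero_le _) (mem_univ l)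
    rw [hw] at h1
    rw [hm]
    have h3 := hJ l
    omega
  · push Not at hi
    rw [cnf_ne _ _ hi, hm' i hi]
    refine rev_vanishes hF.1 hLe hsum (fun j => inv_ne_zero (hy i j)) ?_
    have h1 := hF.2 i
    rw [cnf_ne _ _ hi] at h1
    simpa only [inv_inv] using h1

/-- A common double curve of the transformed system gives a common double curve of the system. -/
theorem dbl_step {k d d₁ : ℕ} {m m₁ : Fin k → ℕ} (J : Fin 3 ↪ Fin k) (hJ : ∀ l, m (J l) ≤ d)
    (hd : ∑ l, m (J l) + d₁ = 2 * d) (hm : ∀ l, m₁ (J l) = d₁ + m (J l) - d)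
    (hm' : ∀ i, (∀ l, J l ≠ i) → m₁ i = m i) {y : Fin k → Fin 3 → ℂ} (hy : ∀ i j, y i j ≠ 0)
    (hex : ∀ l, ∃ F ∈ fatForms 2 d (cnf J y) m, ¬ VanishesToOrder F (Pi.single l 1) (m (J l) + 1))
    (hD : Dbl d₁ m₁ (cnf J fun i j => (y i j)⁻¹)) : Dbl d m (cnf J y) := by
  classical
  obtain ⟨A, a, μ, hA, hAa, hAμ, hnum, hdiv⟩ := hD
  set w : Fin 3 →₀ ℕ := Finsupp.equivFunOnFinite.symm fun l => d - m (J l) with hw
  have hwl : ∀ l, w l = d - m (J l) := fun l => rfl
  have hmem := fun F hF => rev_mem J hJ hd hm hm' hy hwl (F := F) hF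
  -- `A` is not divisible by a variable
  have hX : ∀ l, ¬ X l ∣ A := by
    intro l hl
    obtain ⟨F, hF, hFl⟩ := hex l
    obtain ⟨hLe, hF'⟩ := hmem F hF
    apply hFl
    rw [vanishes_single_iff hF.1]
    intro β hβ
    have h1 : X l ∣ rev w F := hl.trans ((dvd_pow_self A two_ne_zero).trans (hdiv _ hF'))
    rw [X_dvd_iff'] at h1
    have h2 : w - β ∈ (rev w F).support := by
      rw [mem_support_rev hLe]
      refine ⟨tsub_le_self, ?_⟩
      rw [tsub_tsub_cancel_of_le (hLe β hβ)]
      exact hβ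
    have h3 := h1 _ h2
    rw [Finsupp.tsub_apply, hwl] at h3
    omega
  obtain ⟨hirr, hdg⟩ := irreducible_rev hA hX
  set u := dg A with hu
  set B := rev u A with hB
  have hAu : a ≤ ∑ l, u l := by
    obtain ⟨β, hβ⟩ := support_nonempty.2 hA.ne_zero
    rw [← degree_of_hom hAa hβ]
    exact sum_le_sum fun l _ => le_dg A β hβ l
  obtain ⟨b, hb⟩ := Nat.exists_eq_add_of_le hAu
  have hBhom : B.IsHomogeneous b := rev_hom hAa (le_dg A) hb
  have hub : ∀ l, u l ≤ b := by
    intro l
    obtain ⟨β, hβ, hβl⟩ := exists_deg hirr.ne_zero l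
    rw [hdg] at hβl
    rw [← hβl, ← degree_of_hom hBhom hβ]
    exact single_le_sum (f := fun i => β i) (fun _ _ => Nat.zero_le _) (mem_univ l)
  have hua : ∀ l, μ (J l) + u l ≤ a := by
    intro l
    obtain ⟨β, hβ, hβl⟩ := exists_deg hA.ne_zero l
    have h1 := hAμ (J l)
    rw [cnf_J, vanishes_single_iff hAa] at h1
    have h2 := h1 β hβ
    rw [hβl, ← hu] at h2
    omega
  let ν : Fin k → ℕ := fun i => if h : ∃ l, J l = i then b - u h.choose else μ i
  have hνJ : ∀ l, ν (J l) = b - u l := by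
    intro l
    have h : ∃ l', J l' = J l := ⟨l, rfl⟩
    simp only [ν]
    rw [dif_pos h, J.injective h.choose_spec]
  have hνne : ∀ i, (∀ l, J l ≠ i) → ν i = μ i := by
    intro i hi
    have h : ¬ ∃ l, J l = i := by
      rintro ⟨l, hl⟩
      exact hi l hl
    simp only [ν]
    rw [dif_neg h]
  refine ⟨B, b, ν, hirr, hBhom, fun i => ?_, ?_, fun F hF => ?_⟩
  · by_cases hi : ∃ l, J l = i
    · obtain ⟨l, rfl⟩ := hi
      rw [cnf_J, vanishes_single_iff hBhom, hνJ]
      intro β hβ
      have h1 := le_rev u A β hβ l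
      have h2 := hub l
      omega
    · push Not at hi
      rw [cnf_ne _ _ hi, hνne i hi]
      refine rev_vanishes hAa (le_dg A) hb (hy i) ?_
      have h1 := hAμ i
      rwa [cnf_ne _ _ hi] at h1
  · have e1 : ∑ i, μ i = ∑ l : Fin 3, μ (J l) +
        ∑ i ∈ univ.filter (fun i => ∀ l : Fin 3, J l ≠ i), μ i := sum_split (r := 2) J μ
    have e2 : ∑ i, ν i = ∑ l : Fin 3, ν (J l) +
        ∑ i ∈ univ.filter (fun i => ∀ l : Fin 3, J l ≠ i), ν i := sum_split (r := 2) J ν
    have h1 : ∑ i ∈ univ.filter (fun i => ∀ l : Fin 3, J l ≠ i), ν i =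
        ∑ i ∈ univ.filter (fun i => ∀ l : Fin 3, J l ≠ i), μ i :=
      sum_congr rfl fun i hi => hνne i (mem_filter.1 hi).2
    rw [Fin.sum_univ_three] at e1 e2
    rw [h1, hνJ, hνJ, hνJ] at e2
    rw [Fin.sum_univ_three] at hb
    have h2 := hub 0
    have h3 := hub 1
    have h4 := hub 2
    have h5 := hua 0
    have h6 := hua 1
    have h7 := hua 2
    omega
  · obtain ⟨hLe, hF'⟩ := hmem F hF
    by_cases hF0 : F = 0
    · rw [hF0]
      exact dvd_zero _
    obtain ⟨G, hG⟩ := hdiv _ hF'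
    have hne : rev w F ≠ 0 := fun h0 => hF0 (rev_eq_zero hLe h0)
    have hG0 : G ≠ 0 := by
      rintro rfl
      rw [mul_zero] at hG
      exact hne hG
    have h1 : dg (rev w F) = u + u + dg G := by
      rw [hG, dg_mul (pow_ne_zero 2 hA.ne_zero) hG0, pow_two, dg_mul hA.ne_zero hA.ne_zero]
    have h2 : dg (rev w F) ≤ w := dg_le (le_rev w F)
    rw [h1] at h2
    have h3 : Le (w - (u + u)) G := by
      intro β hβ l
      have h4 := le_dg G β hβ l
      have h5 := h2 l
      simp only [Finsupp.add_apply, Finsupp.tsub_apply] at h5 ⊢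
      omega
    have h4 : F = B * B * rev (w - (u + u)) G := by
      have h5 : w = u + u + (w - (u + u)) := by
        ext l
        have h6 := h2 l
        simp only [Finsupp.add_apply, Finsupp.tsub_apply] at h6 ⊢
        omega
      have h6 : Le (u + u) (A * A) := by
        intro β hβ
        have h7 := le_dg (A * A) β hβ
        rwa [dg_mul hA.ne_zero hA.ne_zero] at h7
      calc F = rev w (rev w F) := (rev_rev hLe).symm
        _ = rev (u + u + (w - (u + u))) (A * A * G) := by rw [← h5, hG, pow_two]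
        _ = B * B * rev (w - (u + u)) G := by
            rw [rev_mul h6 h3, rev_mul (le_dg A) (le_dg A)]
    rw [h4, ← pow_two]
    exact dvd_mul_right _ _

end Pool.Agent.H18.Sq
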